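import Pool.Agent.N864.GQ.Local

/-!
# Regularity of the blowing up of the ideal of the fixed points
-/

set_option autoImplicit false
set_option linter.unusedSectionVars false
set_option linter.unusedVariables false

namespace Pool.Agent.N864.GQ

open IsLocalRing Pool.Agent.TH188.QS Pool.Agent.TH188.ARC Pool.Agent.W418.LU2
  Pool.Agent.Y223.G Pool.Agent.Y223.INV

/-- The local ring of the blowing up of a regular centre. -/
theorem exists_blow {K : Type} [Field K] {W : ValuationSubring K} {Q : Subring K} {c : ℕ}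
    {z : Fin c → K} (hP : RegP W.toSubring Q z) (j : Fin c) (hj : ∀ i, z i / z j ∈ W) :
    ∃ E : Subring K, IsRegularLocalRing E ∧ Q ≤ E ∧ E ≤ W.toSubring ∧ IC W.toSubring E ∧
      (∀ i, z i / z j ∈ E) ∧ ∀ S : Subring K, Q ≤ S → IC W.toSubring S →
        (∀ i, z i / z j ∈ S) → E ≤ S := by
  classical
  have hzj0 : z j ≠ 0 := hP.ne j
  have hQW : Q ≤ W.toSubring := hP.PA
  by_cases hzu : (z j)⁻¹ ∈ W
  · have h1 : (z j)⁻¹ ∈ Q := hP.inv _ (hP.mem j) hzj0 hzu
    exact ⟨Q, hP.reg, le_rfl, hQW, hP.inv, fun i => by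
      rw [div_eq_mul_inv]; exact Q.mul_mem (hP.mem i) h1, fun S hS _ _ => hS⟩
  · have hs : ∀ i ∈ Finset.univ.erase j, i ≠ j ∧ (z i)⁻¹ ∉ W.toSubring ∧
        z i * (z j)⁻¹ ∈ W.toSubring := by
      intro i hi
      have h0 : z i * (z j)⁻¹ ∈ W := by rw [← div_eq_mul_inv]; exact hj i
      refine ⟨(Finset.mem_erase.1 hi).1, fun h => hzu ?_, h0⟩
      have h1 : (z j)⁻¹ = (z i * (z j)⁻¹) * (z i)⁻¹ := by
        have := hP.ne i
        field_simp
      rw [h1]
      exact W.mul_mem _ _ h0 h
    have h1 := (regP_qt (loc_V W) hP j hzu (Finset.univ.erase j) hs).reg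
    have hEcl : Subring.closure ((Q : Set K) ∪
        {t | ∃ i ∈ Finset.univ.erase j, t = z i * (z j)⁻¹}) ≤ W.toSubring := by
      rw [Subring.closure_le]
      rintro t (ht | ⟨i, hi, rfl⟩)
      · exact hQW ht
      · exact (hs i hi).2.2
    refine ⟨_, h1, fun x hx => le_lo _ _ (Subring.subset_closure (Or.inl hx)), lo_le hEcl,
      ic_lo hEcl, ?_, ?_⟩
    · intro i
      by_cases hij : i = j
      · rw [hij, div_self hzj0]
        exact Subring.one_mem _
      · rw [div_eq_mul_inv]
        exact le_lo _ _ (Subring.subset_closure (Or.inr ⟨i, Finset.mem_erase.2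
          ⟨hij, Finset.mem_univ _⟩, rfl⟩))
    · intro S hQS hIC hzS
      have h2 : Subring.closure ((Q : Set K) ∪
          {t | ∃ i ∈ Finset.univ.erase j, t = z i * (z j)⁻¹}) ≤ S := by
        rw [Subring.closure_le]
        rintro t (ht | ⟨i, hi, rfl⟩)
        · exact hQS ht
        · rw [← div_eq_mul_inv]
          exact hzS i
      have h3 := lo_mono (A := W.toSubring) h2
      rwa [hIC.lo_eq] at h3

section chart

variable {O K : Type} [CommRing O] [Field K] [Algebra O K] {A : Subalgebra O K} (𝔞 : Ideal A)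

/-- The affine chart of the blowing up. -/
def BW (w : A) : Subalgebra O K :=
  Algebra.adjoin O ((A : Set K) ∪ {x | ∃ a ∈ 𝔞, x = (a : K) / w})

variable {𝔞}

lemma BW_A (w : A) {a : K} (ha : a ∈ A) : a ∈ BW 𝔞 w := Algebra.subset_adjoin (Or.inl ha)

lemma BW_div (w : A) {a : A} (ha : a ∈ 𝔞) : (a : K) / w ∈ BW 𝔞 w :=
  Algebra.subset_adjoin (Or.inr ⟨a, ha, rfl⟩)

lemma BW_le {w : A} {S : Subring K} (h1 : ∀ a ∈ A, a ∈ S) (h2 : ∀ a ∈ 𝔞, (a : K) / w ∈ S) :
    (BW 𝔞 w).toSubring ≤ S := by
  intro x hx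
  change x ∈ BW 𝔞 w at hx
  unfold BW at hx
  induction hx using Algebra.adjoin_induction with
  | mem x hx =>
    rcases hx with hx | ⟨a, ha, rfl⟩
    · exact h1 x hx
    · exact h2 a ha
  | algebraMap r => exact h1 _ (A.algebraMap_mem r)
  | add x y _ _ hx hy => exact S.add_mem hx hy
  | mul x y _ _ hx hy => exact S.mul_mem hx hy

lemma BW_pow {w : A} {n : ℕ} {b : A} (hb : b ∈ 𝔞 ^ n) : (b : K) / (w : K) ^ n ∈ BW 𝔞 w := by
  induction n generalizing b with
  | zero => rw [pow_zero, div_one]; exact BW_A w b.2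
  | succ n ih =>
    rw [pow_succ] at hb
    induction hb using Submodule.mul_induction_on' with
    | mem_mul_mem m hm' l hl =>
      have e : ((m * l : A) : K) / (w : K) ^ (n + 1) = ((m : K) / (w : K) ^ n) * ((l : K) / w) := by
        rw [pow_succ, ← mul_div_mul_comm]
        rfl
      rw [e]
      exact Subalgebra.mul_mem _ (ih hm') (BW_div w hl)
    | add x _ y' _ hx hy =>
      have e : ((x + y' : A) : K) / (w : K) ^ (n + 1) =
          (x : K) / (w : K) ^ (n + 1) + (y' : K) / (w : K) ^ (n + 1) := by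
        rw [← add_div]
        rfl
      rw [e]
      exact Subalgebra.add_mem _ hx hy

variable {W : ValuationSubring K}

/-- Outside the centre. -/
theorem blow_unit (hAW : A.toSubring ≤ W.toSubring) {w : A} (hw0 : (w : K) ≠ 0)
    (hBW : (BW 𝔞 w).toSubring ≤ W.toSubring) {v : A} (hv : v ∈ 𝔞) (hv0 : (v : K) ≠ 0)
    (hvW : (v : K)⁻¹ ∈ W) (hreg : IsRegularLocalRing (lo W.toSubring A.toSubring)) :
    IsRegularLocalRing (lo W.toSubring (BW 𝔞 w).toSubring) := by
  have h1 : (w : K)⁻¹ ∈ W := by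
    have h2 : (w : K)⁻¹ = ((v : K) / w) * (v : K)⁻¹ := by field_simp
    rw [h2]
    exact W.mul_mem _ _ (hBW (BW_div w hv)) hvW
  have h2 : (w : K)⁻¹ ∈ lo W.toSubring A.toSubring :=
    inv_mem_lo hAW (le_lo _ _ w.2) hw0 h1
  have h3 : lo W.toSubring (BW 𝔞 w).toSubring = lo W.toSubring A.toSubring := by
    apply le_antisymm
    · refine lo_le_lo hAW (BW_le (fun a ha => le_lo _ _ ha) fun a ha => ?_)
      rw [div_eq_mul_inv]
      exact Subring.mul_mem _ (le_lo _ _ a.2) h2
    · exact lo_mono fun a ha => BW_A w ha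
  rw [h3]
  exact hreg

end chart

section centre

variable {O K G : Type} [CommRing O] [Field K] [Algebra O K] [Group G]
  {ρ : G →* (K ≃ₐ[O] K)} {A : Subalgebra O K} {W : ValuationSubring K}
  (hst : ∀ g, ∀ a ∈ A, ρ g a ∈ A) {τ : G}

/-- On the centre. -/
theorem blow_centre (hAW : A.toSubring ≤ W.toSubring)
    (hF : Fx (ρ τ) W (lo W.toSubring A.toSubring)) {t : K} {c : ℕ} {z : Fin c → K}
    (hG : Gd (ρ τ) W (lo W.toSubring A.toSubring) t z) {m : ℕ} (hm : 1 ≤ m) {V : Ideal A}
    {v₀ : A} (hv₀ : v₀ ∈ V) (hv0 : (v₀ : K) ≠ 0) (hvW : (v₀ : K)⁻¹ ∈ W) {w : A}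
    (hw : w ∈ fixI hst τ ^ m * V) (hw0 : (w : K) ≠ 0)
    (hBW : (BW (fixI hst τ ^ m * V) w).toSubring ≤ W.toSubring) :
    IsRegularLocalRing (lo W.toSubring (BW (fixI hst τ ^ m * V) w).toSubring) := by
  classical
  set Q := lo W.toSubring A.toSubring with hQ
  set 𝔞 := fixI hst τ ^ m * V with h𝔞
  set S := lo W.toSubring (BW 𝔞 w).toSubring with hS
  have hQW : Q ≤ W.toSubring := hG.reg.PA
  have hSIC : IC W.toSubring S := ic_lo hBW
  have hQS : Q ≤ S := lo_mono fun a ha => BW_A w ha
  have hSW : S ≤ W.toSubring := lo_le hBW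
  have ht0 := hG.t0
  -- elements of the ideal
  have hΩ : ∀ l ∈ fixI hst τ, (l : K) ∈ Submodule.span Q (Set.range fun i => t * z i) := by
    intro l hl
    rw [← hG.eq]
    unfold fixI at hl
    induction hl using Submodule.span_induction with
    | mem x hx =>
      obtain ⟨a, rfl⟩ := hx
      exact Submodule.subset_span ⟨a, le_lo _ _ a.2, rfl⟩
    | zero => exact Submodule.zero_mem _
    | add a b _ _ ha hb => exact Submodule.add_mem _ ha hb
    | smul r a _ ha =>
      have : ((r • a : A) : K) = (⟨(r : K), le_lo _ _ r.2⟩ : Q) • (a : K) := rfl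
      rw [this]
      exact Submodule.smul_mem _ _ ha
  have hc : Nonempty (Fin c) := by
    by_contra hcon
    rw [not_nonempty_iff] at hcon
    have h1 : ∀ l ∈ fixI hst τ, l = 0 := by
      intro l hl
      have h2 := hΩ l hl
      have h3 : (Set.range fun i => t * z i) = ∅ := Set.range_eq_empty _
      rw [h3, Submodule.span_empty, Submodule.mem_bot] at h2
      exact Subtype.ext h2
    have h2 : fixI hst τ = ⊥ := by
      rw [eq_bot_iff]
      intro l hl
      exact h1 l hl
    have h4 : (⊥ : Ideal A) ^ m = ⊥ := by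
      rw [← Ideal.zero_eq_bot, zero_pow (by omega)]
    rw [h𝔞, h2, h4, Submodule.bot_mul] at hw
    exact hw0 (by rw [(Submodule.mem_bot A).1 hw]; rfl)
  obtain ⟨j, hj⟩ := Finite.exists_max (fun i => W.valuation (z i))
  have hzj0 : z j ≠ 0 := hG.reg.ne j
  have hzW : ∀ i, z i / z j ∈ W := by
    intro i
    rw [← W.valuation_le_one_iff, map_div₀]
    exact div_le_one_of_le₀ (hj i) zero_le
  obtain ⟨E, hEreg, hQE, hEW, hEIC, hzE, hEmin⟩ := exists_blow hG.reg j hzW
  have hω0 : t * z j ≠ 0 := mul_ne_zero ht0 hzj0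
  have hE1 : ∀ l ∈ fixI hst τ, (l : K) / (t * z j) ∈ E := by
    intro l hl
    have h1 := hΩ l hl
    rw [Submodule.mem_span_range_iff_exists_fun] at h1
    obtain ⟨q, hq⟩ := h1
    rw [← hq, Finset.sum_div]
    refine Subring.sum_mem _ fun i _ => ?_
    have : q i • (t * z i) / (t * z j) = q i * (z i / z j) := by
      rw [Subring.smul_def, smul_eq_mul]
      field_simp
    rw [this]
    exact E.mul_mem (hQE (q i).2) (hzE i)
  have hEk : ∀ (k : ℕ), ∀ l ∈ fixI hst τ ^ k, (l : K) / (t * z j) ^ k ∈ E := by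
    intro k
    induction k with
    | zero =>
      intro l _
      rw [pow_zero, div_one]
      exact hQE (le_lo _ _ l.2)
    | succ k ih =>
      intro l hl
      rw [pow_succ] at hl
      induction hl using Submodule.mul_induction_on' with
      | mem_mul_mem x hx y hy =>
        have e : ((x * y : A) : K) / (t * z j) ^ (k + 1) =
            ((x : K) / (t * z j) ^ k) * ((y : K) / (t * z j)) := by
          rw [pow_succ, ← mul_div_mul_comm]
          rfl
        rw [e]
        exact E.mul_mem (ih x hx) (hE1 y hy)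
      | add x _ y _ hx hy =>
        have e : ((x + y : A) : K) / (t * z j) ^ (k + 1) =
            (x : K) / (t * z j) ^ (k + 1) + (y : K) / (t * z j) ^ (k + 1) := by
          rw [← add_div]
          rfl
        rw [e]
        exact E.add_mem hx hy
  have hle : 𝔞 ≤ fixI hst τ ^ m := Ideal.mul_le_left
  -- products
  have hωQ : ∀ i, ∃ h : t * z i ∈ Q, (⟨t * z i, h⟩ : Q) ∈ fixR (qact hF) := by
    intro i
    have h1 : t * z i ∈ Submodule.span Q {y : K | ∃ x ∈ Q, y = ρ τ x - x} := by
      rw [hG.eq]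
      exact Submodule.subset_span ⟨i, rfl⟩
    generalize t * z i = y at h1
    induction h1 using Submodule.span_induction with
    | mem x hx =>
      obtain ⟨y, hy, rfl⟩ := hx
      exact ⟨Q.sub_mem (hF y hy).1 hy, fixR_mem (t := qact hF) ⟨y, hy⟩⟩
    | zero => exact ⟨Q.zero_mem, Ideal.zero_mem _⟩
    | add a b _ _ ha hb =>
      obtain ⟨h2, h3⟩ := ha
      obtain ⟨h4, h5⟩ := hb
      exact ⟨Q.add_mem h2 h4, Ideal.add_mem _ h3 h5⟩
    | smul r a _ ha =>
      obtain ⟨h2, h3⟩ := ha
      exact ⟨Q.mul_mem r.2 h2, Ideal.mul_mem_left _ r h3⟩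
  have hprod : ∀ i, (t * z j) ^ (m - 1) * (t * z i) / w ∈ S := by
    intro i
    obtain ⟨h1, h2⟩ := hωQ j
    obtain ⟨h3, h4⟩ := hωQ i
    have h5 : (⟨t * z j, h1⟩ : Q) ^ (m - 1) * ⟨t * z i, h3⟩ ∈ fixR (qact hF) ^ m := by
      have e : m = (m - 1) + 1 := by omega
      rw [e, pow_succ (fixR (qact hF))]
      exact Ideal.mul_mem_mul (Ideal.pow_mem_pow h2 _) h4
    obtain ⟨s, hs0, hsW, a, ha, hsa⟩ := clear_den hst hAW hF m _ h5
    have hsa' : (s : K) * ((t * z j) ^ (m - 1) * (t * z i)) = a := hsa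
    have h6 : ((a * v₀ : A) : K) / w ∈ S :=
      le_lo _ _ (BW_div w (Ideal.mul_mem_mul ha hv₀))
    have h7 : (s : K)⁻¹ ∈ S := hSIC _ (hQS (le_lo _ _ s.2)) hs0 hsW
    have h8 : (v₀ : K)⁻¹ ∈ S := hSIC _ (hQS (le_lo _ _ v₀.2)) hv0 hvW
    have e : (t * z j) ^ (m - 1) * (t * z i) / w = ((a * v₀ : A) : K) / w * (s : K)⁻¹ * (v₀ : K)⁻¹ := by
      change _ = (a : K) * (v₀ : K) / w * (s : K)⁻¹ * (v₀ : K)⁻¹
      rw [← hsa']
      field_simp
    rw [e]
    exact S.mul_mem (S.mul_mem h6 h7) h8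
  -- the unit
  have hμE : (w : K) / (t * z j) ^ m ∈ E := hEk m w (hle hw)
  have hμS : (t * z j) ^ m / w ∈ S := by
    have e : (t * z j) ^ m / (w : K) = (t * z j) ^ (m - 1) * (t * z j) / w := by
      rw [← pow_succ, Nat.sub_add_cancel hm]
    rw [e]
    exact hprod j
  have hpow0 : (t * z j) ^ m ≠ 0 := pow_ne_zero _ hω0
  have hinv : ((w : K) / (t * z j) ^ m)⁻¹ = (t * z j) ^ m / w := inv_div _ _
  have hμE' : (t * z j) ^ m / w ∈ E := by
    rw [← hinv]
    refine hEIC _ hμE (div_ne_zero hw0 hpow0) ?_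
    rw [hinv]
    exact hSW hμS
  have hμS' : (w : K) / (t * z j) ^ m ∈ S := by
    rw [← inv_div]
    refine hSIC _ hμS (div_ne_zero hpow0 hw0) ?_
    rw [inv_div]
    exact hEW hμE
  have hzS : ∀ i, z i / z j ∈ S := by
    intro i
    have e : z i / z j = ((t * z j) ^ (m - 1) * (t * z i) / w) * ((w : K) / (t * z j) ^ m) := by
      have e1 : (t * z j) ^ m = (t * z j) ^ (m - 1) * (t * z j) := by
        rw [← pow_succ, Nat.sub_add_cancel hm]
      have e2 : (t * z j) ^ (m - 1) ≠ 0 := pow_ne_zero _ hω0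
      rw [e1]
      field_simp
    rw [e]
    exact S.mul_mem (hprod i) hμS'
  have hES : E ≤ S := hEmin S hQS hSIC hzS
  have hSE : S ≤ E := by
    have h1 : (BW 𝔞 w).toSubring ≤ E := by
      refine BW_le (fun a ha => hQE (le_lo _ _ ha)) fun a ha => ?_
      have e : (a : K) / w = ((a : K) / (t * z j) ^ m) * ((t * z j) ^ m / w) := by
        field_simp
      rw [e]
      exact E.mul_mem (hEk m a (hle ha)) hμE'
    have h2 := lo_mono (A := W.toSubring) h1
    rwa [hEIC.lo_eq] at h2
  rw [le_antisymm hSE hES]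
  exact hEreg

end centre

section reg

variable {O K : Type} [CommRing O] [Field K] [Algebra O K] {A : Subalgebra O K} {𝔞 : Ideal A}

/-- The chart is a regular ring if its local rings are. -/
theorem BW_regular [IsNoetherianRing O] [hft : Algebra.FiniteType O A] (w : A)
    (h : ∀ W : ValuationSubring K, (BW 𝔞 w).toSubring ≤ W.toSubring →
      IsRegularLocalRing (lo W.toSubring (BW 𝔞 w).toSubring)) : IsRegularRing (BW 𝔞 w) := by
  classical
  have hN : IsNoetherianRing A := Algebra.FiniteType.isNoetherianRing O A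
  have hft' : Algebra.FiniteType O (BW 𝔞 w) := by
    rw [← Subalgebra.fg_iff_finiteType]
    obtain ⟨s, hs⟩ := (Subalgebra.fg_iff_finiteType _).2 hft
    obtain ⟨t, ht⟩ := (IsNoetherian.noetherian 𝔞 : 𝔞.FG)
    refine ⟨s ∪ t.image fun a : A => (a : K) / w, ?_⟩
    apply le_antisymm
    · rw [Algebra.adjoin_le_iff]
      intro x hx
      rw [Finset.coe_union, Finset.coe_image] at hx
      rcases hx with hx | ⟨a, ha, rfl⟩
      · refine BW_A w ?_
        rw [← hs]
        exact Algebra.subset_adjoin hx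
      · exact BW_div w (by rw [← ht]; exact Submodule.subset_span ha)
    · set D := Algebra.adjoin O ((s ∪ t.image fun a : A => (a : K) / w : Finset K) : Set K)
        with hD
      have hAD : ∀ a ∈ A, a ∈ D := by
        intro a ha
        rw [← hs] at ha
        refine Algebra.adjoin_mono ?_ ha
        rw [Finset.coe_union]
        exact Set.subset_union_left
      refine BW_le (S := D.toSubring) hAD fun a ha => ?_
      rw [← ht] at ha
      induction ha using Submodule.span_induction with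
      | mem x hx =>
        refine Algebra.subset_adjoin ?_
        rw [Finset.coe_union, Finset.coe_image]
        exact Or.inr ⟨x, hx, rfl⟩
      | zero =>
        have : ((0 : A) : K) / w = 0 := zero_div _
        rw [this]
        exact D.zero_mem
      | add x y _ _ hx hy =>
        have : ((x + y : A) : K) / w = (x : K) / w + (y : K) / w := add_div _ _ _
        rw [this]
        exact D.add_mem hx hy
      | smul r x _ hx =>
        have : ((r • x : A) : K) / w = (r : K) * ((x : K) / w) := mul_div_assoc _ _ _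
        rw [this]
        exact D.mul_mem (hAD r r.2) hx
  have hN' : IsNoetherianRing (BW 𝔞 w) := Algebra.FiniteType.isNoetherianRing O _
  rw [isRegularRing_iff]
  intro P hP
  obtain ⟨W, hBW, hq⟩ := Pool.Agent.Y223.CC.exists_val (BW 𝔞 w).toSubring P
  obtain ⟨P', hP', hPm, hPreg⟩ := regular_centre' hBW (h W hBW)
  have hPq : P' = P := by
    ext b
    rw [hPm]
    exact (hq b).symm
  subst hPq
  exact hPreg

end reg

end Pool.Agent.N864.GQ
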