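import Pool.Agent.Y563.G.Wch
import Pool.Agent.N864.GQ.Blow

/-!
# The cone over the blowing up
-/

set_option autoImplicit false
set_option linter.unusedSectionVars false
set_option linter.unusedVariables false

namespace Pool.Agent.N864.GQ

open IsLocalRing Pool.Agent.TH188.QS Pool.Agent.TH188.ARC Pool.Agent.W418.LU2
  Pool.Agent.Y223.G Pool.Agent.Y223.INV

section chart

variable {O K : Type} [CommRing O] [Field K] [Algebra O K] {A : Subalgebra O K} {𝔞 : Ideal A}

lemma BW_le_d0 {w : A} (hw : w ∈ 𝔞) (hw0 : (w : K) ≠ 0) :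
    BW 𝔞 w ≤ d0 (loc (RI 𝔞) (hm 1 (w : K)) (hm_one_RI hw)) := by
  unfold BW
  rw [Algebra.adjoin_le_iff]
  rintro x (hx | ⟨a, ha, rfl⟩)
  · exact le_loc _ _ (hm_one_RI hw) (b_RI ⟨x, hx⟩)
  · refine ⟨1, ?_⟩
    change hm 1 (w : K) ^ 1 * hm 0 ((a : K) / w) ∈ RI 𝔞
    rw [pow_one, hm_mul, add_zero, mul_div_cancel₀ _ hw0]
    exact hm_one_RI ha

/-- The localization at an element of degree one. -/
theorem regular_loc_w {w : A} (hw : w ∈ 𝔞) (hw0 : (w : K) ≠ 0)
    (hreg : IsRegularRing (BW 𝔞 w)) :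
    IsRegularRing (loc (RI 𝔞) (hm 1 (w : K)) (hm_one_RI hw)) := by
  classical
  set R := RI 𝔞 with hR
  set C := BW 𝔞 w with hC
  set z : LP K := hm 1 (w : K) with hz
  have h : z ∈ R := hm_one_RI hw
  let θ : Polynomial C →+* LP K := Polynomial.eval₂RingHom
    (((zer O K).comp C.val : C →ₐ[O] LP K) : C →+* LP K) z
  have hθC : ∀ c : C, θ (Polynomial.C c) = hm 0 (c : K) := by
    intro b
    change Polynomial.eval₂ _ _ _ = _
    rw [Polynomial.eval₂_C]
    rfl
  have hθX : θ Polynomial.X = z := by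
    change Polynomial.eval₂ _ _ _ = _
    rw [Polynomial.eval₂_X]
  have hθm : ∀ (m : ℕ) (c : C), θ (Polynomial.monomial m c) =
      hm (m : ℤ) ((c : K) * (w : K) ^ m) := by
    intro m b
    rw [← Polynomial.C_mul_X_pow_eq_monomial, map_mul, map_pow, hθC, hθX, hz, hm_pow, hm_mul]
    congr 1
    ring
  have hcoef : ∀ (f : Polynomial C) (n : ℕ), (θ f).coeff (n : ℤ) =
      (f.coeff n : K) * (w : K) ^ n := by
    intro f n
    induction f using Polynomial.induction_on' with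
    | add p q hp hq =>
      rw [map_add, AddMonoidAlgebra.coeff_add, Finsupp.add_apply, hp, hq,
        Polynomial.coeff_add, AddMemClass.coe_add, add_mul]
    | monomial m b =>
      rw [hθm, coeff_hm, Polynomial.coeff_monomial]
      by_cases h : m = n
      · subst h; rw [if_pos rfl, if_pos rfl]
      · rw [if_neg h, if_neg, ZeroMemClass.coe_zero, zero_mul]
        intro h2
        exact h (by exact_mod_cast h2)
  have hθinj : Function.Injective θ := by
    rw [injective_iff_map_eq_zero]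
    intro f hf
    ext n
    have h1 := hcoef f n
    rw [hf] at h1
    have h2 : ((f.coeff n : C) : K) * (w : K) ^ n = 0 := h1.symm
    rw [mul_eq_zero] at h2
    rcases h2 with h2 | h2
    · rw [h2, Polynomial.coeff_zero]; rfl
    · exact absurd h2 (pow_ne_zero _ hw0)
  let θ' : Polynomial C →ₐ[O] LP K :=
    { toRingHom := θ
      commutes' := fun r => by
        change θ (algebraMap O (Polynomial C) r) = _
        rw [IsScalarTower.algebraMap_apply O C (Polynomial C)]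
        change θ (Polynomial.C _) = _
        rw [hθC]
        rfl }
  have hregP : IsRegularRing (Polynomial C) := inferInstance
  have e := AlgEquiv.ofInjective θ' hθinj
  have h0 : IsRegularRing θ'.range := IsRegularRing.of_ringEquiv e.toRingEquiv
  have hzR : z ∈ θ'.range := ⟨Polynomial.X, hθX⟩
  have hzu : IsUnit z := isUnit_hm hw0
  have h1 := regular_loc h0 hzR hzu
  have h2 : loc R z h = loc θ'.range z hzR := by
    have hsub : R ≤ loc θ'.range z hzR := by
      intro f hf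
      rw [eq_sum_hm f]
      refine Subalgebra.sum_mem _ fun d _ => ?_
      obtain ⟨b, hb, hb'⟩ := hf d
      rw [← hb']
      rcases le_or_gt 0 d with h | h
      · obtain ⟨n, rfl⟩ := Int.eq_ofNat_of_zero_le h
        rw [Int.toNat_natCast] at hb
        refine le_loc _ _ _ ⟨Polynomial.monomial n ⟨(b : K) / (w : K) ^ n, BW_pow hb⟩, ?_⟩
        change θ _ = _
        rw [hθm]
        congr 1
        exact div_mul_cancel₀ _ (pow_ne_zero _ hw0)
      · obtain ⟨n, hn⟩ := Int.eq_ofNat_of_zero_le (a := -d) (by omega)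
        have hd : d = -(n : ℤ) := by
          have : -d = (n : ℤ) := hn
          omega
        refine ⟨n, Polynomial.C ⟨((w ^ n * b : A) : K), BW_A w (w ^ n * b).2⟩, ?_⟩
        change θ _ = _
        rw [hθC]
        change hm 0 ((w : K) ^ n * (b : K)) = _
        rw [hz, hm_pow, hm_mul, hd]
        congr 1
        ring
    have hsub' : θ'.range ≤ loc R z h := by
      have hC0 : C ≤ d0 (loc R z h) := BW_le_d0 hw hw0
      rintro _ ⟨f, rfl⟩
      change θ f ∈ _
      induction f using Polynomial.induction_on' with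
      | add p q hp hq => rw [map_add]; exact Subalgebra.add_mem _ hp hq
      | monomial m c =>
        rw [← Polynomial.C_mul_X_pow_eq_monomial, map_mul, map_pow, hθC, hθX]
        exact Subalgebra.mul_mem _ (hC0 c.2) (Subalgebra.pow_mem _ (le_loc _ _ _ h) m)
    apply le_antisymm
    · rintro f ⟨n, hn⟩
      obtain ⟨m, hm'⟩ := hsub hn
      exact ⟨m + n, by rw [pow_add, mul_assoc]; exact hm'⟩
    · rintro f ⟨n, hn⟩
      obtain ⟨m, hm'⟩ := hsub' hn
      exact ⟨m + n, by rw [pow_add, mul_assoc]; exact hm'⟩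
  rw [h2]
  exact h1

/-- The Rees algebra is regular outside of the vertex. -/
theorem rg_RI [IsNoetherianRing O] [hft : Algebra.FiniteType O A]
    (hreg : ∀ w ∈ 𝔞, (w : K) ≠ 0 → IsRegularRing (BW 𝔞 w)) (e : ℕ) (η : K)
    (he : hm (e : ℤ) η ∈ RI 𝔞) (h0 : 0 < e) (hη : η ≠ 0) :
    IsRegularRing (loc (RI 𝔞) (hm (e : ℤ) η) he) := by
  classical
  set R := RI 𝔞 with hR
  set x : LP K := hm (e : ℤ) η with hx
  set B := loc R x he with hB
  have hxu : IsUnit x := isUnit_hm hη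
  have hftB : Algebra.FiniteType O B := ft_loc ft_RI he hxu
  have hN : IsNoetherianRing B := Algebra.FiniteType.isNoetherianRing O B
  have hle : R ≤ B := le_loc _ _ _
  rw [isRegularRing_iff]
  intro P hP
  obtain ⟨x', hx'⟩ := hxu.exists_right_inv
  have hxP : (⟨x, hle he⟩ : B) ∉ P := by
    intro h1
    apply hP.ne_top
    rw [Ideal.eq_top_iff_one]
    have h2 : (1 : B) = ⟨x, hle he⟩ * ⟨x', inv_mem_loc _ _ _ _ hx'⟩ := Subtype.ext hx'.symm
    rw [h2]
    exact P.mul_mem_right _ h1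
  let Q : Ideal R := P.comap (Subalgebra.inclusion hle : R →+* B)
  have hQ : Q.IsPrime := Ideal.comap_isPrime _ _
  obtain ⟨w, hw, hwQ⟩ := exists_deg_one Q hQ he h0 hxP
  have hw0 : (w : K) ≠ 0 := by
    intro h
    apply hwQ
    have e : (⟨hm 1 (w : K), hm_one_RI hw⟩ : R) = 0 := by
      apply Subtype.ext
      change hm 1 (w : K) = 0
      rw [h, hm_zero]
    rw [e]
    exact Q.zero_mem
  have hzR : hm 1 (w : K) ∈ R := hm_one_RI hw
  have h1 : hm 1 (w : K) ∈ B := hle hzR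
  have hzu : IsUnit (hm 1 (w : K)) := isUnit_hm hw0
  have h2 := regular_loc_w hw hw0 (hreg w hw hw0)
  have hxz : x ∈ loc R (hm 1 (w : K)) hzR := le_loc _ _ _ he
  have h3 := regular_loc h2 hxz hxu
  have e1 : loc B (hm 1 (w : K)) h1 = loc (loc R (hm 1 (w : K)) hzR) x hxz := by
    apply le_antisymm
    · rintro f ⟨n, m, hf⟩
      exact ⟨m, n, by rw [mul_left_comm]; exact hf⟩
    · rintro f ⟨n, m, hf⟩
      exact ⟨m, n, by rw [mul_left_comm]; exact hf⟩
  have h4 : IsRegularRing (loc B (hm 1 (w : K)) h1) := by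
    rw [e1]
    exact h3
  let _ := locAlg B h1
  have h5 : IsLocalization.Away (⟨hm 1 (w : K), h1⟩ : B) (loc B (hm 1 (w : K)) h1) :=
    isLocalization_loc B h1 hzu
  refine Pool.Agent.Y563.GW.reg_of_loc (B := loc B (hm 1 (w : K)) h1)
    (Submonoid.powers (⟨hm 1 (w : K), h1⟩ : B)) P ?_ (fun p _ _ => inferInstance)
  rw [Set.disjoint_left]
  rintro _ ⟨n, rfl⟩ hn
  exact hwQ (hP.mem_of_pow_mem n hn)

/-- The valuation ring of a prime ideal of the Rees algebra. -/
theorem exists_W (Q : Ideal (RI 𝔞)) (hQ : Q.IsPrime) {w : A} (hw : w ∈ 𝔞)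
    (hwQ : (⟨_, hm_one_RI hw⟩ : RI 𝔞) ∉ Q) :
    ∃ W : ValuationSubring K, (BW 𝔞 w).toSubring ≤ W.toSubring ∧
      (∀ a : A, (⟨_, b_RI a⟩ : RI 𝔞) ∈ Q ↔ W.valuation (a : K) < 1) ∧
      ∀ (y : A) (hy : y ∈ 𝔞), (⟨_, hm_one_RI hy⟩ : RI 𝔞) ∈ Q →
        W.valuation ((y : K) / w) < 1 := by
  classical
  have hw0 : (w : K) ≠ 0 := by
    intro h
    apply hwQ
    have e : (⟨hm 1 (w : K), hm_one_RI hw⟩ : RI 𝔞) = 0 := by
      apply Subtype.ext
      change hm 1 (w : K) = 0
      rw [h, hm_zero]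
    rw [e]
    exact Q.zero_mem
  have hzR : hm 1 (w : K) ∈ RI 𝔞 := hm_one_RI hw
  have hzu : IsUnit (hm 1 (w : K)) := isUnit_hm hw0
  set D := loc (RI 𝔞) (hm 1 (w : K)) hzR with hD
  let _ := locAlg (RI 𝔞) hzR
  have h5 : IsLocalization.Away (⟨hm 1 (w : K), hzR⟩ : RI 𝔞) D := isLocalization_loc (RI 𝔞) hzR hzu
  have hdis : Disjoint ((Submonoid.powers (⟨hm 1 (w : K), hzR⟩ : RI 𝔞)) : Set (RI 𝔞)) (Q : Set (RI 𝔞)) := by
    rw [Set.disjoint_left]
    rintro _ ⟨n, rfl⟩ hn
    exact hwQ (hQ.mem_of_pow_mem n hn)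
  have hp : (Q.map (algebraMap (RI 𝔞) D)).IsPrime :=
    IsLocalization.isPrime_of_isPrime_disjoint (Submonoid.powers (⟨hm 1 (w : K), hzR⟩ : RI 𝔞)) D Q hQ
      hdis
  have hc : (Q.map (algebraMap (RI 𝔞) D)).comap (algebraMap (RI 𝔞) D) = Q :=
    IsLocalization.under_map_of_isPrime_disjoint
      (Submonoid.powers (⟨hm 1 (w : K), hzR⟩ : RI 𝔞)) D hQ hdis
  set QD := Q.map (algebraMap (RI 𝔞) D) with hQD
  let j : BW 𝔞 w →+* D :=
    { toFun := fun x => ⟨hm 0 (x : K), BW_le_d0 hw hw0 x.2⟩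
      map_one' := Subtype.ext hm_one
      map_zero' := Subtype.ext (hm_zero 0)
      map_mul' := fun x y => Subtype.ext (by
        change hm 0 ((x : K) * (y : K)) = hm 0 (x : K) * hm 0 (y : K)
        rw [hm_mul, add_zero])
      map_add' := fun x y => Subtype.ext (hm_add 0 _ _) }
  have hr : (QD.comap j).IsPrime := Ideal.comap_isPrime _ _
  obtain ⟨W, hBW, hW⟩ := Pool.Agent.Y223.CC.exists_val (BW 𝔞 w).toSubring (QD.comap j)
  refine ⟨W, hBW, ?_, ?_⟩
  · intro a
    have h1 := hW ⟨a, BW_A w a.2⟩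
    rw [← h1]
    change _ ↔ j ⟨a, BW_A w a.2⟩ ∈ QD
    have h2 : j ⟨a, BW_A w a.2⟩ = algebraMap (RI 𝔞) D ⟨_, b_RI a⟩ := rfl
    rw [h2, ← Ideal.mem_comap, hc]
  · intro y hy hyQ
    have h1 := hW ⟨(y : K) / w, BW_div w hy⟩
    apply h1.1
    change j ⟨(y : K) / w, BW_div w hy⟩ ∈ QD
    have h2 : algebraMap (RI 𝔞) D ⟨_, hm_one_RI hy⟩ =
        algebraMap (RI 𝔞) D ⟨_, hzR⟩ * j ⟨(y : K) / w, BW_div w hy⟩ := by
      apply Subtype.ext
      change hm 1 (y : K) = hm 1 (w : K) * hm 0 ((y : K) / w)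
      rw [hm_mul, add_zero, mul_div_cancel₀ _ hw0]
    have h3 : algebraMap (RI 𝔞) D ⟨_, hm_one_RI hy⟩ ∈ QD := Ideal.mem_map_of_mem _ hyQ
    rw [h2] at h3
    have h4 : IsUnit (algebraMap (RI 𝔞) D ⟨_, hzR⟩) :=
      IsLocalization.Away.algebraMap_isUnit (⟨hm 1 (w : K), hzR⟩ : RI 𝔞)
    exact (Ideal.unit_mul_mem_iff_mem _ h4).1 h3

end chart

end Pool.Agent.N864.GQ
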