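import Pool.Agent.Y223.G.AllW
import Pool.Agent.N864.GQ.Cone

/-!
# The inertia groups outside of the vertex, and the quotient
-/

set_option autoImplicit false
set_option linter.unusedSectionVars false
set_option linter.unusedVariables false

namespace Pool.Agent.N864.GQ

open IsLocalRing Pool.Agent.TH188.QS Pool.Agent.TH188.ARC Pool.Agent.W418.LU2
  Pool.Agent.Y223.G Pool.Agent.Y223.INV

variable {O K G : Type} [CommRing O] [Field K] [Algebra O K] [Group G]
  {ρ : G →* (K ≃ₐ[O] K)} {A : Subalgebra O K}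

lemma tlhm (τ : K ≃ₐ[O] K) (d : ℤ) (x : K) : tl τ (hm d x) = hm d (τ x) :=
  Pool.Agent.Y223.G.tl_hm d x

/-- The condition on the local ring `Q` of a point: it is regular, and its inertia group is trivial
or of prime order, generated by `τ`, and the ideal of the fixed points of `τ` is `t (z i)`, with
elements `z i` of a regular system of parameters, and `τ` acts as a scalar modulo its square. -/
def PT (ρ : G →* (K ≃ₐ[O] K)) (W : ValuationSubring K) (Q : Subring K) : Prop :=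
  IsRegularLocalRing Q ∧ ((∀ g, Fx (ρ g) W Q → g = 1) ∨
    ∃ (p : ℕ) (τ : G), p.Prime ∧ τ ^ p = 1 ∧ τ ≠ 1 ∧ (∀ g, Fx (ρ g) W Q → g ∈ Subgroup.zpowers τ) ∧
      (∃ (t : K) (c : ℕ) (z : Fin c → K), Gd (ρ τ) W Q t z) ∧
      ∃ hF : Fx (ρ τ) W Q, ∃ u, ∀ x ∈ fixR (qact hF), qact hF x - u * x ∈ fixR (qact hF) ^ 2)

section fin

variable [Fintype G] (hst : ∀ g, ∀ a ∈ A, ρ g a ∈ A) {W : ValuationSubring K}

lemma nu_iff {W : ValuationSubring K} {x : K} (hx : x ∈ W) :
    NU W.toSubring x ↔ W.valuation x < 1 := by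
  constructor
  · intro h
    by_contra hcon
    apply h
    have h1 : W.valuation x = 1 := le_antisymm ((W.valuation_le_one_iff x).2 hx) (not_lt.1 hcon)
    have h0 : x ≠ 0 := by
      rintro rfl
      rw [map_zero] at h1
      exact zero_ne_one h1
    refine ⟨h0, ?_⟩
    change x⁻¹ ∈ W
    rw [← W.valuation_le_one_iff, map_inv₀, h1, inv_one]
  · rintro h ⟨h0, h1⟩
    have h2 : W.valuation x⁻¹ ≤ 1 := (W.valuation_le_one_iff _).2 h1
    have h3 : W.valuation x * W.valuation x⁻¹ = 1 := by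
      rw [← map_mul, mul_inv_cancel₀ h0, map_one]
    have h4 : W.valuation x * W.valuation x⁻¹ < 1 := mul_lt_one_of_lt_of_le h h2
    exact absurd h3 h4.ne

/-- The centre of the valuation ring. -/
def ctr (hAW : A.toSubring ≤ W.toSubring) : Ideal A where
  carrier := {a | W.valuation (a : K) < 1}
  zero_mem' := by
    change W.valuation ((0 : A) : K) < 1
    rw [ZeroMemClass.coe_zero, map_zero]; exact zero_lt_one
  add_mem' := fun {a b} ha hb => by
    change W.valuation ((a + b : A) : K) < 1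
    exact Valuation.map_add_lt _ ha hb
  smul_mem' := fun c a ha => by
    change W.valuation ((c * a : A) : K) < 1
    have h1 : W.valuation ((c * a : A) : K) = W.valuation (a : K) * W.valuation (c : K) := by
      rw [← map_mul, mul_comm]
      rfl
    rw [h1]
    exact mul_lt_one_of_lt_of_le ha ((W.valuation_le_one_iff _).2 (hAW c.2))

lemma ctr_prime (hAW : A.toSubring ≤ W.toSubring) : (ctr hAW).IsPrime := by
  refine ⟨?_, ?_⟩
  · rw [Ne, Ideal.eq_top_iff_one]
    change ¬ W.valuation ((1 : A) : K) < 1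
    rw [OneMemClass.coe_one, map_one]
    exact lt_irrefl _
  · intro a b hab
    change W.valuation ((a * b : A) : K) < 1 at hab
    have h1 : W.valuation ((a * b : A) : K) = W.valuation (a : K) * W.valuation (b : K) := by
      rw [← map_mul]
      rfl
    rw [h1] at hab
    by_contra hcon
    rw [not_or] at hcon
    have ha : W.valuation (a : K) = 1 := le_antisymm ((W.valuation_le_one_iff _).2 (hAW a.2))
      (not_lt.1 hcon.1)
    have hb : W.valuation (b : K) = 1 := le_antisymm ((W.valuation_le_one_iff _).2 (hAW b.2))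
      (not_lt.1 hcon.2)
    rw [ha, hb, one_mul] at hab
    exact lt_irrefl _ hab

lemma unit_of_not_ctr (hAW : A.toSubring ≤ W.toSubring) {v : A} (hv : v ∉ ctr hAW) :
    (v : K) ≠ 0 ∧ (v : K)⁻¹ ∈ W := by
  have h1 : ¬ NU W.toSubring (v : K) := fun h => hv ((nu_iff (hAW v.2)).1 h)
  rw [NU, not_not] at h1
  exact h1

lemma fx_of_le (hAW : A.toSubring ≤ W.toSubring) {g : G} (h : fixI hst g ≤ ctr hAW) :
    Fx (ρ g) W (lo W.toSubring A.toSubring) := by
  refine fx_lo hAW (hst g) fun a ha => ?_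
  rw [nu_iff (W.toSubring.sub_mem (hAW (hst g a ha)) (hAW ha))]
  exact h (fixI_mem hst g ⟨a, ha⟩)

/-- The charts of the blowing up are regular. -/
theorem BW_reg [IsNoetherianRing O] [hft : Algebra.FiniteType O A]
    (hloc : ∀ W : ValuationSubring K, A.toSubring ≤ W.toSubring →
      PT ρ W (lo W.toSubring A.toSubring)) (w : A) (hw : w ∈ AI hst) (hw0 : (w : K) ≠ 0) :
    IsRegularRing (BW (AI hst) w) := by
  refine BW_regular w fun W hBW => ?_
  have hAW : A.toSubring ≤ W.toSubring := fun a ha => hBW (BW_A w ha)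
  obtain ⟨hreg, h | ⟨p, τ, hp, hτ, hτ1, hI, ⟨t, c, z, hG⟩, hF, hsc⟩⟩ := hloc W hAW
  · obtain ⟨v, hv, hvq⟩ := II_not_le hst (ctr hAW) (ctr_prime hAW) fun g hg =>
      h g (fx_of_le hst hAW hg)
    obtain ⟨hv0, hvW⟩ := unit_of_not_ctr hAW hvq
    exact blow_unit hAW hw0 hBW hv hv0 hvW hreg
  · obtain ⟨m, hm, -, n, hAI⟩ := AI_eq hst hp hτ hτ1
    obtain ⟨v, hv, hvq⟩ := VV_not_le hst (τ := τ) (ctr hAW) (ctr_prime hAW) (fun g hg =>
      hI g (fx_of_le hst hAW hg)) n
    obtain ⟨hv0, hvW⟩ := unit_of_not_ctr hAW hvq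
    rw [hAI] at hw hBW ⊢
    exact blow_centre hst hAW hF hG hm hv hv0 hvW hw hw0 hBW

/-- The fixed points outside of the vertex. -/
theorem fix_cond [IsNoetherianRing O] [hft : Algebra.FiniteType O A]
    {Q : Ideal (RI (AI hst))} (hQ : Q.IsPrime) {w : A} (hw : w ∈ AI hst)
    (hwQ : (⟨_, hm_one_RI hw⟩ : RI (AI hst)) ∉ Q)
    (hBW : (BW (AI hst) w).toSubring ≤ W.toSubring)
    (hW0 : ∀ a : A, (⟨_, b_RI a⟩ : RI (AI hst)) ∈ Q ↔ W.valuation (a : K) < 1)
    (hW1 : ∀ (y : A) (hy : y ∈ AI hst), (⟨_, hm_one_RI hy⟩ : RI (AI hst)) ∈ Q →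
      W.valuation ((y : K) / w) < 1)
    {p : ℕ} {τ : G} (hp : p.Prime) (hτ : τ ^ p = 1) (hτ1 : τ ≠ 1)
    (hfa : fixI hst τ ≠ ⊥)
    (hI : ∀ g, Fx (ρ g) W (lo W.toSubring A.toSubring) → g ∈ Subgroup.zpowers τ)
    (hF : Fx (ρ τ) W (lo W.toSubring A.toSubring))
    (hsc : ∃ u, ∀ x ∈ fixR (qact hF), qact hF x - u * x ∈ fixR (qact hF) ^ 2) :
    ∃ b ∈ RI (AI hst), ∀ c ∈ RI (AI hst), ∃ (s : LP K) (hs : s ∈ RI (AI hst)),
      (⟨s, hs⟩ : RI (AI hst)) ∉ Q ∧
        ∃ u ∈ RI (AI hst), s * (tl (ρ τ) c - c) = u * (tl (ρ τ) b - b) := by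
  classical
  have hAW : A.toSubring ≤ W.toSubring := fun a ha => hBW (BW_A w ha)
  have hN : IsNoetherianRing A := Algebra.FiniteType.isNoetherianRing O A
  have hw0 : (w : K) ≠ 0 := by
    intro h
    apply hwQ
    have e : (⟨hm 1 (w : K), hm_one_RI hw⟩ : RI (AI hst)) = 0 := by
      apply Subtype.ext
      change hm 1 (w : K) = 0
      rw [h, hm_zero]
    rw [e]
    exact Q.zero_mem
  obtain ⟨m, hm1, hpm, n, hAI⟩ := AI_eq hst hp hτ hτ1
  obtain ⟨v₀, hv₀, hvq⟩ := VV_not_le hst (τ := τ) (ctr hAW) (ctr_prime hAW) (fun g hg =>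
    hI g (fx_of_le hst hAW hg)) n
  obtain ⟨hv0, hvW⟩ := unit_of_not_ctr hAW hvq
  set L := fixI hst τ with hL
  -- the generator with the greatest value
  obtain ⟨a₀, ha0, ha₀⟩ : ∃ a₀ : A, ((act hst τ a₀ - a₀ : A) : K) ≠ 0 ∧
      ∀ l ∈ L, (l : K) / ((act hst τ a₀ - a₀ : A) : K) ∈ W := by
    obtain ⟨T, hT, hTs⟩ := Submodule.fg_span_iff_fg_span_finset_subset
      {x : A | ∃ a : A, x = act hst τ a - a} |>.1 (IsNoetherian.noetherian (fixI hst τ))
    have hTne : T.Nonempty := by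
      by_contra hcon
      rw [Finset.not_nonempty_iff_eq_empty] at hcon
      apply hfa
      change Submodule.span A _ = ⊥
      rw [hTs, hcon, Finset.coe_empty, Submodule.span_empty]
    obtain ⟨x, hxT, hx⟩ := T.exists_max_image (fun x : A => W.valuation (x : K)) hTne
    obtain ⟨a₀, rfl⟩ := hT hxT
    have hx0 : ((act hst τ a₀ - a₀ : A) : K) ≠ 0 := by
      intro h0
      apply hfa
      rw [eq_bot_iff]
      change Submodule.span A _ ≤ _
      rw [hTs, Submodule.span_le]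
      intro y hy
      have h1 := hx y hy
      rw [h0, map_zero] at h1
      have h2 : W.valuation (y : K) = 0 := le_antisymm h1 zero_le
      rw [map_eq_zero] at h2
      exact (Submodule.mem_bot A).2 (Subtype.ext h2)
    refine ⟨a₀, hx0, ?_⟩
    intro l hl
    have hl' : l ∈ Submodule.span A (T : Set A) := by rw [← hTs]; exact hl
    clear hl
    induction hl' using Submodule.span_induction with
    | mem y hy =>
      rw [← W.valuation_le_one_iff, map_div₀]
      exact div_le_one_of_le₀ (hx y hy) zero_le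
    | zero =>
      rw [ZeroMemClass.coe_zero, zero_div]
      exact W.zero_mem
    | add a b _ _ ha hb =>
      rw [AddMemClass.coe_add, add_div]
      exact W.add_mem _ _ ha hb
    | smul r a _ ha =>
      have : ((r • a : A) : K) / ((act hst τ a₀ - a₀ : A) : K) =
          (r : K) * ((a : K) / ((act hst τ a₀ - a₀ : A) : K)) := mul_div_assoc _ _ _
      rw [this]
      exact W.mul_mem _ _ (hAW r.2) ha
  set y : A := act hst τ a₀ - a₀ with hy
  have hyL : y ∈ L := fixI_mem hst τ a₀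
  -- the element of degree one
  have hx𝔞 : y ^ m * v₀ ∈ AI hst := by
    rw [hAI]
    exact Ideal.mul_mem_mul (Ideal.pow_mem_pow hyL m) hv₀
  have hdiv : ∀ (k : ℕ), ∀ l ∈ L ^ k, (l : K) / (y : K) ^ k ∈ W := by
    intro k
    induction k with
    | zero =>
      intro l _
      rw [pow_zero, div_one]
      exact hAW l.2
    | succ k ih =>
      intro l hl
      rw [pow_succ] at hl
      induction hl using Submodule.mul_induction_on' with
      | mem_mul_mem x hx z hz =>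
        have e : ((x * z : A) : K) / (y : K) ^ (k + 1) =
            ((x : K) / (y : K) ^ k) * ((z : K) / (y : K)) := by
          rw [pow_succ, ← mul_div_mul_comm]
          rfl
        rw [e]
        exact W.mul_mem _ _ (ih x hx) (ha₀ z hz)
      | add x _ z _ hx hz =>
        have e : ((x + z : A) : K) / (y : K) ^ (k + 1) =
            (x : K) / (y : K) ^ (k + 1) + (z : K) / (y : K) ^ (k + 1) := by
          rw [← add_div]
          rfl
        rw [e]
        exact W.add_mem _ _ hx hz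
  have hxQ : (⟨_, hm_one_RI hx𝔞⟩ : RI (AI hst)) ∉ Q := by
    intro h
    have h1 := hW1 _ hx𝔞 h
    have hwL : w ∈ L ^ m := by
      have : w ∈ L ^ m * VV hst τ ^ n := by rw [← hAI]; exact hw
      exact Ideal.mul_le_left this
    have h2 : ((w : K) / (y : K) ^ m) * (v₀ : K)⁻¹ ∈ W := W.mul_mem _ _ (hdiv m w hwL) hvW
    have h3 : W.valuation (((w : K) / (y : K) ^ m) * (v₀ : K)⁻¹) ≤ 1 :=
      (W.valuation_le_one_iff _).2 h2
    have h4 : W.valuation (((y ^ m * v₀ : A) : K) / w) *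
        W.valuation (((w : K) / (y : K) ^ m) * (v₀ : K)⁻¹) = 1 := by
      rw [← map_mul]
      have e : ((y ^ m * v₀ : A) : K) / w * (((w : K) / (y : K) ^ m) * (v₀ : K)⁻¹) = 1 := by
        change (y : K) ^ m * (v₀ : K) / w * (((w : K) / (y : K) ^ m) * (v₀ : K)⁻¹) = 1
        have := pow_ne_zero m ha0
        field_simp
      rw [e, map_one]
    have h5 := mul_lt_one_of_lt_of_le h1 h3
    rw [h4] at h5
    exact lt_irrefl _ h5
  set x : LP K := hm 1 ((y ^ m * v₀ : A) : K) with hx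
  have hxR : x ∈ RI (AI hst) := hm_one_RI hx𝔞
  -- the key property
  have hkey : ∀ l ∈ L, ∃ u ∈ RI (AI hst), x * hm 0 (l : K) = u * hm 0 (y : K) := by
    intro l hl
    have h1 : y ^ (m - 1) * v₀ * l ∈ AI hst := by
      rw [hAI]
      have e : y ^ (m - 1) * v₀ * l = (y ^ (m - 1) * l) * v₀ := by ring
      rw [e]
      refine Ideal.mul_mem_mul ?_ hv₀
      have e2 : L ^ m = L ^ (m - 1) * L := by rw [← pow_succ, Nat.sub_add_cancel hm1]
      rw [e2]
      exact Ideal.mul_mem_mul (Ideal.pow_mem_pow hyL _) hl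
    refine ⟨_, hm_one_RI h1, ?_⟩
    rw [hx, hm_mul, hm_mul]
    congr 1
    change (y : K) ^ m * (v₀ : K) * l = (y : K) ^ (m - 1) * (v₀ : K) * l * y
    have e : (y : K) ^ m = (y : K) ^ (m - 1) * y := by rw [← pow_succ, Nat.sub_add_cancel hm1]
    rw [e]
    ring
  have hkey2 : ∀ f ∈ L * AI hst, ∃ u ∈ RI (AI hst), x * hm 1 (f : K) = u * hm 0 (y : K) := by
    intro f hf
    induction hf using Submodule.mul_induction_on' with
    | mem_mul_mem l hl a ha =>
      obtain ⟨u, hu, hu'⟩ := hkey l hl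
      refine ⟨u * hm 1 (a : K), Subalgebra.mul_mem _ hu (hm_one_RI ha), ?_⟩
      have e : hm 1 ((l * a : A) : K) = hm 0 (l : K) * hm 1 (a : K) := by
        rw [hm_mul, zero_add]
        rfl
      rw [e, ← mul_assoc, hu']
      ring
    | add a _ b _ ha hb =>
      obtain ⟨u, hu, hu'⟩ := ha
      obtain ⟨u', hu1, hu1'⟩ := hb
      refine ⟨u + u', Subalgebra.add_mem _ hu hu1, ?_⟩
      rw [AddMemClass.coe_add, hm_add, mul_add, hu', hu1', add_mul]
  have hone : (1 : RI (AI hst)) ∉ Q := fun h => hQ.ne_top ((Ideal.eq_top_iff_one _).2 h)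
  have hstR : ∀ f ∈ RI (AI hst), tl (ρ τ) f ∈ RI (AI hst) := by
    refine RI_induction ?_ ?_ ?_ ?_ ?_
    · intro b
      rw [tlhm]
      exact b_RI (act hst τ b)
    · rw [tlhm, map_one]
      exact s_RI
    · intro a ha
      rw [tlhm]
      exact hm_one_RI (AI_act hst ha τ)
    · intro f _ g _ hf hg
      rw [map_add]
      exact Subalgebra.add_mem _ hf hg
    · intro f _ g _ hf hg
      rw [map_mul]
      exact Subalgebra.mul_mem _ hf hg
  refine ⟨hm 0 (a₀ : K), b_RI a₀, ?_⟩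
  have hb : tl (ρ τ) (hm 0 (a₀ : K)) - hm 0 (a₀ : K) = hm 0 (y : K) := by
    rw [tlhm, ← hm_sub]
    rfl
  rw [hb]
  refine RI_induction ?_ ?_ ?_ ?_ ?_
  · intro a
    obtain ⟨u, hu, hu'⟩ := hkey _ (fixI_mem hst τ a)
    refine ⟨x, hxR, hxQ, u, hu, ?_⟩
    rw [← hu', tlhm, ← hm_sub]
    rfl
  · refine ⟨1, Subalgebra.one_mem _, hone, 0, Subalgebra.zero_mem _, ?_⟩
    rw [tlhm, map_one, sub_self, mul_zero, zero_mul]
  · intro a ha
    have ha' : a ∈ L ^ m * VV hst τ ^ n := by rw [← hAI]; exact ha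
    obtain ⟨s, hs0, hsW, hs⟩ := claimS hst hAW hF hτ hsc hpm hv₀ hv0 hvW a ha'
    rw [← hAI] at hs
    obtain ⟨u, hu, hu'⟩ := hkey2 _ hs
    refine ⟨x * hm 0 (s : K), Subalgebra.mul_mem _ hxR (b_RI s), ?_, u, hu, ?_⟩
    · intro h
      have h1 : (⟨x, hxR⟩ : RI (AI hst)) * ⟨hm 0 (s : K), b_RI s⟩ ∈ Q := h
      rcases hQ.mem_or_mem h1 with h2 | h2
      · exact hxQ h2
      · rw [hW0, ← nu_iff (hAW s.2)] at h2
        exact h2 ⟨hs0, hsW⟩
    · rw [← hu', tlhm, ← hm_sub, mul_assoc, hm_mul, zero_add]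
      rfl
  · rintro f hf g hg ⟨s, hs, hsQ, u, hu, h1⟩ ⟨s', hs', hsQ', u', hu', h1'⟩
    refine ⟨s * s', Subalgebra.mul_mem _ hs hs', ?_, s' * u + s * u',
      Subalgebra.add_mem _ (Subalgebra.mul_mem _ hs' hu) (Subalgebra.mul_mem _ hs hu'), ?_⟩
    · intro h
      have h2 : (⟨s, hs⟩ : RI (AI hst)) * ⟨s', hs'⟩ ∈ Q := h
      rcases hQ.mem_or_mem h2 with h3 | h3
      · exact hsQ h3
      · exact hsQ' h3
    · rw [map_add]
      linear_combination s' * h1 + s * h1'
  · rintro f hf g hg ⟨s, hs, hsQ, u, hu, h1⟩ ⟨s', hs', hsQ', u', hu', h1'⟩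
    refine ⟨s * s', Subalgebra.mul_mem _ hs hs', ?_, s' * u * tl (ρ τ) g + s * u' * f,
      Subalgebra.add_mem _ (Subalgebra.mul_mem _ (Subalgebra.mul_mem _ hs' hu) (hstR g hg))
        (Subalgebra.mul_mem _ (Subalgebra.mul_mem _ hs hu') hf), ?_⟩
    · intro h
      have h2 : (⟨s, hs⟩ : RI (AI hst)) * ⟨s', hs'⟩ ∈ Q := h
      rcases hQ.mem_or_mem h2 with h3 | h3
      · exact hsQ h3
      · exact hsQ' h3
    · rw [map_mul]
      linear_combination (s' * tl (ρ τ) g) * h1 + (s * f) * h1'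

lemma fixI_ne_bot (hfaith : ∀ g, (∀ a ∈ A, ρ g a = a) → g = 1) {g : G} (hg : g ≠ 1) :
    fixI hst g ≠ ⊥ := by
  intro h
  apply hg
  apply hfaith
  intro a ha
  have h1 := fixI_mem hst g ⟨a, ha⟩
  rw [h, Submodule.mem_bot] at h1
  exact sub_eq_zero.1 (congrArg Subtype.val h1)

/-- The quotient is regular outside of the vertex. -/
theorem ch_res [IsNoetherianRing O] [hft : Algebra.FiniteType O A] {K' : Type} [Field K']
    [Algebra O K'] (ι : K' →ₐ[O] K) (hfix : ∀ x, (∀ g, ρ g x = x) ↔ ∃ y, ι y = x)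
    (hfaith : ∀ g, (∀ a ∈ A, ρ g a = a) → g = 1)
    (hloc : ∀ W : ValuationSubring K, A.toSubring ≤ W.toSubring →
      PT ρ W (lo W.toSubring A.toSubring)) : Ch (res ι (RI (AI hst))) := by
  classical
  have hne : AI hst ≠ ⊥ := by
    unfold AI II
    rw [← Ideal.zero_eq_bot]
    refine pow_ne_zero _ ?_
    rw [Finset.prod_ne_zero_iff]
    intro g hg
    rw [Finset.mem_filter] at hg
    exact fixI_ne_bot hst hfaith hg.2
  obtain ⟨w₀, hw₀, hw₀0⟩ := Submodule.exists_mem_ne_zero_of_ne_bot hne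
  have hw₀K : (w₀ : K) ≠ 0 := fun h => hw₀0 (Subtype.ext h)
  have hCh : Ch (RI (AI hst)) :=
    { ft := ft_RI
      gr := gr_RI
      ss := s_RI
      cf := fun d x hx => by
        obtain ⟨b, -, rfl⟩ := of_hm_RI hx
        exact b_RI b
      pos := ⟨1, (w₀ : K), one_pos, hw₀K, hm_one_RI hw₀⟩
      rg := fun e η he h0 hη => rg_RI (BW_reg hst hloc) e η he h0 hη }
  have hstR : ∀ g, ∀ f ∈ RI (AI hst), tl (ρ g) f ∈ RI (AI hst) := by
    intro g
    refine RI_induction ?_ ?_ ?_ ?_ ?_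
    · intro b
      rw [tlhm]
      exact b_RI (act hst g b)
    · rw [tlhm, map_one]
      exact s_RI
    · intro a ha
      rw [tlhm]
      exact hm_one_RI (AI_act hst ha g)
    · intro f _ f' _ hf hf'
      rw [map_add]
      exact Subalgebra.add_mem _ hf hf'
    · intro f _ f' _ hf hf'
      rw [map_mul]
      exact Subalgebra.mul_mem _ hf hf'
  refine Pool.Agent.Y279.G.t_STEPG Pool.Agent.Y824.G4.t_DESCG O K K' ι G ρ hfix (RI (AI hst)) hCh
    hstR ?_ ?_
  · intro g hg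
    apply hfaith
    intro a ha
    have h1 := hg _ (b_RI (𝔞 := AI hst) ⟨a, ha⟩)
    rw [tlhm] at h1
    exact hm_inj h1
  · rintro Q hQ ⟨e, η, he, h0, heQ⟩
    obtain ⟨w, hw, hwQ⟩ := exists_deg_one Q hQ he h0 heQ
    obtain ⟨W, hBW, hW0, hW1⟩ := exists_W Q hQ hw hwQ
    have hAW : A.toSubring ≤ W.toSubring := fun a ha => hBW (BW_A w ha)
    have hin : ∀ g, (∀ f ∈ RI (AI hst), ∃ h : tl (ρ g) f - f ∈ RI (AI hst),
        (⟨tl (ρ g) f - f, h⟩ : RI (AI hst)) ∈ Q) → Fx (ρ g) W (lo W.toSubring A.toSubring) := by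
      intro g hg
      refine fx_of_le hst hAW ?_
      unfold fixI
      rw [Ideal.span_le]
      rintro _ ⟨a, rfl⟩
      obtain ⟨h1, h2⟩ := hg _ (b_RI a)
      have e1 : (⟨_, h1⟩ : RI (AI hst)) = ⟨_, b_RI (act hst g a - a)⟩ := by
        apply Subtype.ext
        change tl (ρ g) (hm 0 (a : K)) - hm 0 (a : K) = hm 0 (ρ g a - a)
        rw [tlhm, ← hm_sub]
      rw [e1] at h2
      exact (hW0 _).1 h2
    obtain ⟨hreg, h | ⟨p, τ, hp, hτ, hτ1, hI, -, hF, hsc⟩⟩ := hloc W hAW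
    · exact Or.inl fun g hg => h g (hin g hg)
    · refine Or.inr ⟨p, τ, hp, hτ, fun g hg => hI g (hin g hg), ?_⟩
      exact fix_cond hst hQ hw hwQ hBW hW0 hW1 hp hτ hτ1 (fixI_ne_bot hst hfaith hτ1) hI hF hsc

end fin

end Pool.Agent.N864.GQ
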