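import Pool.Agent.Y794.H.Gvw
import Pool.Agent.Y417.G.EXF
import Pool.Agent.N864.GQ.Fix

/-!
# Invariant forms, and their charts
-/

set_option autoImplicit false
set_option linter.unusedSectionVars false
set_option linter.unusedVariables false

namespace Pool.Agent.N864.GQ

open Pool.Agent.Y223.G Pool.Agent.TH188.QS Pool.Agent.W418.LU2 Pool.Agent.TH188.ARC
open Pool.Agent.Y515.G (ext_val int_mem)
open Pool.Agent.Y25.G (MN_mul MN_one MN_zero MN_z MN_succ MN_pow_z FS_pow FS_mul FS_one)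
open Pool.Agent.Y31.H (MN_split MN_div_pow)
open Pool.Agent.Y794.H (FS_prod semi_FS MN_div_prod)

variable {O K G : Type} [CommRing O] [Field K] [Algebra O K] [Group G]
  (ρ : G →* (K ≃ₐ[O] K)) {m : ℕ} (z : Fin (m + 1) → K)

/-- Invariant forms such that every valuation ring contains one of their charts. -/
theorem exists_forms [Finite G] {Y : Type} [Field Y] [Algebra O Y] (ι : Y →ₐ[O] K)
    (hz : ∀ j, z j ≠ 0) (hlin : ∀ g j, ρ g (z j) ∈ Submodule.span O (Set.range z)) (r : ℕ)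
    (hr : 1 ≤ r) :
    ∃ (n : ℕ) (S : Set K), 1 ≤ n ∧ S.Finite ∧
      (∀ Φ ∈ S, Φ ∈ FS O z (n * r) ∧ Φ ≠ 0 ∧ ∀ g, ρ g Φ = Φ) ∧
      ∀ V : ValuationSubring Y, (∀ c : O, algebraMap O Y c ∈ V) →
        ∃ Φ ∈ S, ∀ x, ι x ∈ AF O z (n * r) Φ → x ∈ V := by
  classical
  obtain ⟨e⟩ : Nonempty (Fin (Nat.card G - 1 + 1) ≃ G) := by
    have h1 : 0 < Nat.card G := Nat.card_pos
    have h2 : Nat.card G - 1 + 1 = Nat.card G := by omega
    rw [h2]
    exact ⟨(Finite.equivFin G).symm⟩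
  let _ : Fintype G := Fintype.ofFinite G
  obtain ⟨d, P, hd, hfin, hFS, hEV⟩ := Pool.Agent.Y417.G.t_EXF O K m z hz (Nat.card G - 1)
  -- the norms
  obtain ⟨Nm, hNm⟩ : ∃ Nm : K → K, ∀ F, Nm F = ∏ g : G, ρ g F := ⟨_, fun F => rfl⟩
  have hNinv : ∀ (h : G) F, ρ h (Nm F) = Nm F := by
    intro h F
    rw [hNm, map_prod]
    refine Fintype.prod_equiv (Equiv.mulLeft h) _ _ fun g => ?_
    rw [Equiv.coe_mulLeft, map_mul, AlgEquiv.mul_apply]
  have hN0 : ∀ F, F ≠ 0 → Nm F ≠ 0 := by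
    intro F hF
    rw [hNm]
    exact Finset.prod_ne_zero_iff.2 fun g _ h => hF ((map_eq_zero _).1 h)
  have hρFS : ∀ (g : G) (d : ℕ) (x : K), x ∈ FS O z d → ρ g x ∈ FS O z d := by
    intro g d x hx
    exact semi_FS z ((ρ g : K ≃ₐ[O] K) : K →+* K) (fun o => o) (fun o => (ρ g).commutes o)
      (fun j => hlin g j) d hx
  have hcard : 1 ≤ Fintype.card G := Fintype.card_pos
  have hNFS : ∀ (d : ℕ) (F : K), F ∈ FS O z d → Nm F ∈ FS O z (d * Fintype.card G) := by
    intro d F hF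
    rw [hNm]
    have h1 := FS_prod (O := O) z (Finset.univ : Finset G) (fun g => ρ g F) (fun _ => d)
      (fun g _ => hρFS g d F hF)
    rwa [Finset.sum_const, Finset.card_univ, smul_eq_mul, mul_comm] at h1
  refine ⟨d * Fintype.card G, (fun F => Nm F ^ r) '' {F ∈ P | F ≠ 0},
    Nat.one_le_iff_ne_zero.2 (Nat.mul_ne_zero (by omega) (by omega)),
    (hfin.subset (Set.sep_subset _ _)).image _, ?_, ?_⟩
  · rintro _ ⟨F, ⟨hF, hF0⟩, rfl⟩
    refine ⟨FS_pow z (hNFS _ _ (hFS F hF)) r, pow_ne_zero _ (hN0 _ hF0), fun g => ?_⟩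
    change ρ g (Nm F ^ r) = Nm F ^ r
    rw [map_pow, hNinv]
  intro V hVO
  obtain ⟨V', hV'⟩ := ext_val (ι : Y →+* K) V
  have hOV : ∀ o : O, algebraMap O K o ∈ V' := fun o => by
    have h1 : algebraMap O K o = (ι : Y →+* K) (algebraMap O Y o) := (ι.commutes o).symm
    rw [h1]
    exact (hV' _).2 (hVO o)
  obtain ⟨F, hF, hF0, hx⟩ := hEV (fun i => V'.comap ((ρ (e i) : K ≃ₐ[O] K) : K →+* K))
    (fun i c => by
      rw [ValuationSubring.mem_comap]
      change ρ (e i) (algebraMap O K c) ∈ V'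
      rw [(ρ (e i)).commutes]
      exact hOV _)
  refine ⟨Nm F ^ r, ⟨F, ⟨hF, hF0⟩, rfl⟩, ?_⟩
  have hgen1 : ∀ (g : G), ∀ y ∈ FS O z d, ρ g (y / F) ∈ V' := by
    intro g y hy
    unfold FS at hy
    induction hy using Submodule.span_induction with
    | mem x hx1 =>
      have h3 := hx (e.symm g) x hx1
      rw [e.apply_symm_apply] at h3
      exact h3
    | zero => rw [zero_div, map_zero]; exact V'.zero_mem
    | add x y _ _ hx hy => rw [add_div, map_add]; exact V'.add_mem _ _ hx hy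
    | smul c x _ hx =>
      rw [Algebra.smul_def, mul_div_assoc, map_mul, (ρ g).commutes]
      exact V'.mul_mem _ _ (hOV _) hx
  have hgen2 : ∀ (g : G), ∀ y ∈ MN z d, y / ρ g F ∈ V' := by
    intro g y hy
    have h1 := hgen1 g (ρ g⁻¹ y) (hρFS g⁻¹ _ y (Submodule.subset_span hy))
    have h2 : ρ g (ρ g⁻¹ y / F) = y / ρ g F := by
      rw [map_div₀, ← AlgEquiv.mul_apply, ← map_mul, mul_inv_cancel, map_one, AlgEquiv.one_apply]
    rwa [h2] at h1
  have hgen3 : ∀ y ∈ MN z (d * Fintype.card G), y / Nm F ∈ V' := by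
    intro y hy
    rw [hNm]
    exact MN_div_prod z d (fun g : G => ρ g F) V' hgen2 Finset.univ y
      (by rw [Finset.card_univ]; exact hy)
  have hgen : ∀ y ∈ MN z (d * Fintype.card G * r), y / Nm F ^ r ∈ V' :=
    MN_div_pow z (d * Fintype.card G) (Nm F) V' hgen3 r
  let W' : Subalgebra O K :=
    { carrier := {x | x ∈ V'}
      mul_mem' := fun {a b} ha hb => V'.mul_mem _ _ ha hb
      add_mem' := fun {a b} ha hb => V'.add_mem _ _ ha hb
      algebraMap_mem' := fun r => hOV r }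
  have hCW : AF O z (d * Fintype.card G * r) (Nm F ^ r) ≤ W' := by
    unfold AF
    rw [Algebra.adjoin_le_iff]
    rintro y ⟨x', hx', rfl⟩
    exact hgen x' hx'
  intro x hx1
  exact (hV' x).1 (hCW hx1)

section charts

variable {z} {d : ℕ} {Φ : K}

lemma MN_finite (z : Fin (m + 1) → K) (d : ℕ) : (MN z d).Finite := by
  classical
  let T : Set (Fin (m + 1) → ℕ) := Set.pi Set.univ fun _ => Set.Iic d
  have hT : T.Finite := Set.Finite.pi fun _ => Set.finite_Iic d
  refine (hT.image fun a => ∏ i, z i ^ a i).subset ?_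
  rintro x ⟨a, ha, rfl⟩
  refine ⟨a, fun i _ => ?_, rfl⟩
  rw [← ha]
  exact Finset.single_le_sum (fun _ _ => Nat.zero_le _) (Finset.mem_univ i)

lemma AF_ft (z : Fin (m + 1) → K) (d : ℕ) (Φ : K) : Algebra.FiniteType O (AF O z d Φ) := by
  rw [← Subalgebra.fg_iff_finiteType]
  refine Subalgebra.fg_def.2 ⟨_, ?_, rfl⟩
  refine ((MN_finite z d).image fun x => x / Φ).subset ?_
  rintro y ⟨x, hx, rfl⟩
  exact ⟨x, hx, rfl⟩

lemma FS_AF {y : K} (hy : y ∈ FS O z d) : y / Φ ∈ AF O z d Φ := by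
  unfold FS at hy
  induction hy using Submodule.span_induction with
  | mem x hx => exact Algebra.subset_adjoin ⟨x, hx, rfl⟩
  | zero => rw [zero_div]; exact Subalgebra.zero_mem _
  | add x y _ _ hx hy => rw [add_div]; exact Subalgebra.add_mem _ hx hy
  | smul c x _ hx =>
    rw [Algebra.smul_def, mul_div_assoc]
    exact Subalgebra.mul_mem _ (Subalgebra.algebraMap_mem _ c) hx

/-- The elements of the chart have denominators. -/
lemma AF_den (hΦ0 : Φ ≠ 0) (hΦ : Φ ∈ FS O z d) {y : K} (hy : y ∈ AF O z d Φ) :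
    ∃ N₀ : ℕ, ∀ N, N₀ ≤ N → Φ ^ N * y ∈ FS O z (d * N) := by
  unfold AF at hy
  induction hy using Algebra.adjoin_induction with
  | mem y hy =>
    obtain ⟨x, hx, rfl⟩ := hy
    refine ⟨1, fun N hN => ?_⟩
    obtain ⟨N, rfl⟩ := Nat.exists_eq_add_of_le' hN
    have e : Φ ^ (N + 1) * (x / Φ) = Φ ^ N * x := by
      rw [pow_succ]
      field_simp
    rw [e, Nat.mul_succ]
    exact FS_mul z (FS_pow z hΦ N) (Submodule.subset_span hx)
  | algebraMap r =>
    refine ⟨0, fun N _ => ?_⟩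
    rw [mul_comm (Φ ^ N), ← Algebra.smul_def]
    exact Submodule.smul_mem _ _ (FS_pow z hΦ N)
  | add x y _ _ hx hy =>
    obtain ⟨a, ha⟩ := hx
    obtain ⟨b, hb⟩ := hy
    refine ⟨a + b, fun N hN => ?_⟩
    rw [mul_add]
    exact Submodule.add_mem _ (ha N (by omega)) (hb N (by omega))
  | mul x y _ _ hx hy =>
    obtain ⟨a, ha⟩ := hx
    obtain ⟨b, hb⟩ := hy
    refine ⟨a + b, fun N hN => ?_⟩
    obtain ⟨c, rfl⟩ := Nat.exists_eq_add_of_le hN
    have e : Φ ^ (a + b + c) * (x * y) = (Φ ^ a * x) * (Φ ^ (b + c) * y) := by ring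
    have e' : d * (a + b + c) = d * a + d * (b + c) := by ring
    rw [e, e']
    exact FS_mul z (ha a le_rfl) (hb (b + c) (by omega))

lemma AF_act {ρ : G →* (K ≃ₐ[O] K)} (hlin : ∀ g j, ρ g (z j) ∈ Submodule.span O (Set.range z))
    (hΦ : ∀ g, ρ g Φ = Φ) (g : G) : ∀ a ∈ AF O z d Φ, ρ g a ∈ AF O z d Φ := by
  intro a ha
  unfold AF at ha
  induction ha using Algebra.adjoin_induction with
  | mem y hy =>
    obtain ⟨x, hx, rfl⟩ := hy
    rw [map_div₀, hΦ]
    exact FS_AF (semi_FS z ((ρ g : K ≃ₐ[O] K) : K →+* K) (fun o => o)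
      (fun o => (ρ g).commutes o) (fun j => hlin g j) d (Submodule.subset_span hx))
  | algebraMap r =>
    rw [(ρ g).commutes]
    exact Subalgebra.algebraMap_mem _ r
  | add x y _ _ hx hy => rw [map_add]; exact Subalgebra.add_mem _ hx hy
  | mul x y _ _ hx hy => rw [map_mul]; exact Subalgebra.mul_mem _ hx hy

/-- The ratios of the coordinates. -/
lemma AF_ratio (hz : ∀ j, z j ≠ 0) (hΦ0 : Φ ≠ 0) (hd : 1 ≤ d) (i j : Fin (m + 1)) :
    z i * z j ^ (d - 1) / Φ ∈ AF O z d Φ ∧ z j ^ d / Φ ∈ AF O z d Φ ∧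
      z i / z j = (z i * z j ^ (d - 1) / Φ) / (z j ^ d / Φ) := by
  have e : d = 1 + (d - 1) := by omega
  refine ⟨?_, Algebra.subset_adjoin ⟨_, MN_pow_z z j d, rfl⟩, ?_⟩
  · refine Algebra.subset_adjoin ⟨_, ?_, rfl⟩
    have h1 := MN_mul z (MN_z z i) (MN_pow_z z j (d - 1))
    rwa [← e] at h1
  · have h1 : z j ^ d = z j ^ (d - 1) * z j := by
      rw [← pow_succ]
      congr 1
      omega
    rw [h1]
    have := hz j
    field_simp

/-- Local rings of the charts. -/
theorem lo_AF (hz : ∀ j, z j ≠ 0) (hΦ0 : Φ ≠ 0) (hΦ : Φ ∈ FS O z d) (hd : 1 ≤ d)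
    {W : ValuationSubring K} (hAW : (AF O z d Φ).toSubring ≤ W.toSubring) :
    ∃ j, (Algebra.adjoin O (Set.range fun i => z i / z j)).toSubring ≤ W.toSubring ∧
      lo W.toSubring (AF O z d Φ).toSubring =
        lo W.toSubring (Algebra.adjoin O (Set.range fun i => z i / z j)).toSubring := by
  classical
  obtain ⟨j, hj⟩ := Finite.exists_max (fun i => W.valuation (z i))
  have hOW : ∀ o : O, algebraMap O K o ∈ W := fun o => hAW (Subalgebra.algebraMap_mem _ o)
  set C := Algebra.adjoin O (Set.range fun i => z i / z j) with hC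
  let W' : Subalgebra O K :=
    { carrier := {x | x ∈ W}
      mul_mem' := fun {a b} ha hb => W.mul_mem _ _ ha hb
      add_mem' := fun {a b} ha hb => W.add_mem _ _ ha hb
      algebraMap_mem' := fun r => hOW r }
  have hCW' : C ≤ W' := by
    rw [hC, Algebra.adjoin_le_iff]
    rintro _ ⟨i, rfl⟩
    change z i / z j ∈ W
    rw [← W.valuation_le_one_iff, map_div₀]
    exact div_le_one_of_le₀ (hj i) zero_le
  have hCW : C.toSubring ≤ W.toSubring := hCW'
  have hzj := hz j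
  -- forms over powers of `z j`
  have hMNC : ∀ (e : ℕ), ∀ x ∈ MN z e, x / z j ^ e ∈ C := by
    intro e
    induction e with
    | zero =>
      intro x hx
      rw [MN_zero z hx, pow_zero, div_one]
      exact Subalgebra.one_mem _
    | succ e ih =>
      intro x hx
      obtain ⟨i, x', hx', rfl⟩ := MN_succ z hx
      rw [pow_succ', mul_div_mul_comm]
      exact Subalgebra.mul_mem _ (Algebra.subset_adjoin ⟨i, rfl⟩) (ih x' hx')
  have hFSC : ∀ x ∈ FS O z d, x / z j ^ d ∈ C := by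
    intro x hx
    unfold FS at hx
    induction hx using Submodule.span_induction with
    | mem x hx => exact hMNC d x hx
    | zero => rw [zero_div]; exact Subalgebra.zero_mem _
    | add x y _ _ hx hy => rw [add_div]; exact Subalgebra.add_mem _ hx hy
    | smul c x _ hx =>
      rw [Algebra.smul_def, mul_div_assoc]
      exact Subalgebra.mul_mem _ (Subalgebra.algebraMap_mem _ c) hx
  have hu : Φ / z j ^ d ∈ C := hFSC Φ hΦ
  have hu' : z j ^ d / Φ ∈ AF O z d Φ := Algebra.subset_adjoin ⟨_, MN_pow_z z j d, rfl⟩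
  have huinv : (Φ / z j ^ d)⁻¹ = z j ^ d / Φ := inv_div _ _
  have huinv' : (z j ^ d / Φ)⁻¹ = Φ / z j ^ d := inv_div _ _
  have hu0 : Φ / z j ^ d ≠ 0 := div_ne_zero hΦ0 (pow_ne_zero _ hzj)
  have hu0' : z j ^ d / Φ ≠ 0 := div_ne_zero (pow_ne_zero _ hzj) hΦ0
  refine ⟨j, hCW, le_antisymm (lo_le_lo hCW ?_) (lo_le_lo hAW ?_)⟩
  · let L : Subalgebra O K :=
      { (lo W.toSubring C.toSubring) with
        algebraMap_mem' := fun r => le_lo _ _ (Subalgebra.algebraMap_mem C r) }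
    have h1 : AF O z d Φ ≤ L := by
      unfold AF
      rw [Algebra.adjoin_le_iff]
      rintro _ ⟨x, hx, rfl⟩
      change x / Φ ∈ lo W.toSubring C.toSubring
      refine ⟨x / z j ^ d, hMNC d x hx, Φ / z j ^ d, hu, hu0, ?_, ?_⟩
      · rw [huinv]
        exact hAW hu'
      · field_simp
    exact h1
  · let L : Subalgebra O K :=
      { (lo W.toSubring (AF O z d Φ).toSubring) with
        algebraMap_mem' := fun r => le_lo _ _ (Subalgebra.algebraMap_mem (AF O z d Φ) r) }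
    have h1 : C ≤ L := by
      rw [hC, Algebra.adjoin_le_iff]
      rintro _ ⟨i, rfl⟩
      change z i / z j ∈ lo W.toSubring (AF O z d Φ).toSubring
      obtain ⟨h2, h3, h4⟩ := AF_ratio (O := O) hz hΦ0 hd i j
      refine ⟨_, h2, _, h3, hu0', ?_, ?_⟩
      · rw [huinv']
        exact hCW hu
      · rw [← div_eq_mul_inv]
        exact h4
    exact h1

end charts

end Pool.Agent.N864.GQ
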