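import Pool.Agent.N864.GQ.Forms

/-!
# Gluing of the blowings up of the charts
-/

set_option autoImplicit false
set_option linter.unusedSectionVars false
set_option linter.unusedVariables false

namespace Pool.Agent.N864.GQ

open Pool.Agent.Y223.G Pool.Agent.TH188.QS Pool.Agent.W418.LU2 Pool.Agent.TH188.ARC
open Pool.Agent.Y25.G (MN_mul MN_one MN_zero MN_z MN_succ MN_pow_z FS_pow FS_mul FS_one)

variable {O K G : Type} [CommRing O] [Field K] [Algebra O K] [Group G]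
  {ρ : G →* (K ≃ₐ[O] K)} {A B : Subalgebra O K}

/-- The elements of `I` times powers of `u` are in `J`. -/
def Gl (u : K) (I : Ideal B) (J : Ideal A) : Prop :=
  ∀ b ∈ I, ∃ (n : ℕ) (a : A), a ∈ J ∧ (a : K) = u ^ n * b

section

variable {u : K} (hu : u ∈ A)

include hu in
lemma Gl_add {J : Ideal A} {x y : K} (hx : ∃ (n : ℕ) (a : A), a ∈ J ∧ (a : K) = u ^ n * x)
    (hy : ∃ (n : ℕ) (a : A), a ∈ J ∧ (a : K) = u ^ n * y) :
    ∃ (n : ℕ) (a : A), a ∈ J ∧ (a : K) = u ^ n * (x + y) := by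
  obtain ⟨n, a, ha, hn⟩ := hx
  obtain ⟨n', a', ha', hn'⟩ := hy
  refine ⟨n + n', (⟨u, hu⟩ : A) ^ n' * a + (⟨u, hu⟩ : A) ^ n * a',
    Ideal.add_mem _ (Ideal.mul_mem_left _ _ ha) (Ideal.mul_mem_left _ _ ha'), ?_⟩
  change u ^ n' * (a : K) + u ^ n * (a' : K) = _
  rw [hn, hn']
  ring

include hu in
lemma Gl_mul {I I' : Ideal B} {J J' : Ideal A} (h : Gl u I J) (h' : Gl u I' J') :
    Gl u (I * I') (J * J') := by
  intro b hb
  induction hb using Submodule.mul_induction_on' with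
  | mem_mul_mem x hx y hy =>
    obtain ⟨n, a, ha, hn⟩ := h x hx
    obtain ⟨n', a', ha', hn'⟩ := h' y hy
    refine ⟨n + n', a * a', Ideal.mul_mem_mul ha ha', ?_⟩
    change (a : K) * (a' : K) = u ^ (n + n') * ((x : K) * (y : K))
    rw [hn, hn']
    ring
  | add x _ y _ hx hy => exact Gl_add hu hx hy

lemma Gl_top (hAB : ∀ b ∈ B, ∃ n : ℕ, u ^ n * b ∈ A) : Gl u (⊤ : Ideal B) (⊤ : Ideal A) := by
  intro b _
  obtain ⟨n, hn⟩ := hAB b b.2
  exact ⟨n, ⟨_, hn⟩, trivial, rfl⟩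

include hu in
lemma Gl_prod (hAB : ∀ b ∈ B, ∃ n : ℕ, u ^ n * b ∈ A) {T : Type} (s : Finset T)
    (I : T → Ideal B) (J : T → Ideal A) (h : ∀ i ∈ s, Gl u (I i) (J i)) :
    Gl u (∏ i ∈ s, I i) (∏ i ∈ s, J i) := by
  classical
  induction s using Finset.induction_on with
  | empty =>
    rw [Finset.prod_empty, Finset.prod_empty, Ideal.one_eq_top, Ideal.one_eq_top]
    exact Gl_top hAB
  | insert a s ha ih =>
    rw [Finset.prod_insert ha, Finset.prod_insert ha]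
    exact Gl_mul hu (h a (Finset.mem_insert_self a s))
      (ih fun i hi => h i (Finset.mem_insert_of_mem hi))

include hu in
lemma Gl_pow (hAB : ∀ b ∈ B, ∃ n : ℕ, u ^ n * b ∈ A) {I : Ideal B} {J : Ideal A}
    (h : Gl u I J) (n : ℕ) : Gl u (I ^ n) (J ^ n) := by
  induction n with
  | zero =>
    rw [pow_zero, pow_zero, Ideal.one_eq_top, Ideal.one_eq_top]
    exact Gl_top hAB
  | succ n ih =>
    rw [pow_succ, pow_succ]
    exact Gl_mul hu ih h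

variable (hA : ∀ g, ∀ a ∈ A, ρ g a ∈ A) (hB : ∀ g, ∀ b ∈ B, ρ g b ∈ B)
  (hinv : ∀ g, ρ g u = u)

include hu hinv in
lemma Gl_fixI (hAB : ∀ b ∈ B, ∃ n : ℕ, u ^ n * b ∈ A) (g : G) :
    Gl u (fixI hB g) (fixI hA g) := by
  intro b hb
  unfold fixI at hb
  induction hb using Submodule.span_induction with
  | mem x hx =>
    obtain ⟨y, rfl⟩ := hx
    obtain ⟨n, hn⟩ := hAB y y.2
    refine ⟨n, _, fixI_mem hA g ⟨_, hn⟩, ?_⟩
    change ρ g (u ^ n * (y : K)) - u ^ n * (y : K) = u ^ n * (ρ g (y : K) - y)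
    rw [map_mul, map_pow, hinv]
    ring
  | zero => exact ⟨0, 0, Ideal.zero_mem _, by simp⟩
  | add x y _ _ hx hy => exact Gl_add hu hx hy
  | smul c x _ hx =>
    obtain ⟨n, a, ha, hn⟩ := hx
    obtain ⟨n', hn'⟩ := hAB c c.2
    refine ⟨n' + n, ⟨_, hn'⟩ * a, Ideal.mul_mem_left _ _ ha, ?_⟩
    change u ^ n' * (c : K) * (a : K) = u ^ (n' + n) * ((c : K) * (x : K))
    rw [hn]
    ring

section fin

variable [Fintype G]

include hu hinv in
lemma Gl_AI (hAB : ∀ b ∈ B, ∃ n : ℕ, u ^ n * b ∈ A) : Gl u (AI hB) (AI hA) := by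
  classical
  unfold AI II
  exact Gl_pow hu hAB (Gl_prod hu hAB _ _ _ fun g _ => Gl_fixI hu hA hB hinv hAB g) _

include hu hinv in
/-- The Rees algebras glue. -/
theorem glue_RI (hAB : ∀ b ∈ B, ∃ n : ℕ, u ^ n * b ∈ A) :
    ∀ f ∈ RI (AI hB), ∃ n : ℕ, hm 0 u ^ n * f ∈ RI (AI hA) := by
  classical
  have hU : hm 0 u ∈ RI (AI hA) := b_RI (𝔞 := AI hA) ⟨u, hu⟩
  have hpow : ∀ (n : ℕ) (d : ℤ) (x : K), hm 0 u ^ n * hm d x = hm d (u ^ n * x) := by
    intro n d x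
    induction n with
    | zero => rw [pow_zero, pow_zero, one_mul, one_mul]
    | succ n ih =>
      rw [pow_succ', mul_assoc, ih, hm_mul, zero_add]
      congr 1
      ring
  refine RI_induction ?_ ?_ ?_ ?_ ?_
  · intro b
    obtain ⟨n, hn⟩ := hAB b b.2
    refine ⟨n, ?_⟩
    rw [hpow]
    exact b_RI (𝔞 := AI hA) ⟨_, hn⟩
  · exact ⟨0, by rw [pow_zero, one_mul]; exact s_RI⟩
  · intro w hw
    obtain ⟨n, a, ha, hn⟩ := Gl_AI hu hA hB hinv hAB w hw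
    refine ⟨n, ?_⟩
    rw [hpow, ← hn]
    exact hm_one_RI ha
  · rintro f _ g _ ⟨n, hn⟩ ⟨n', hn'⟩
    refine ⟨n + n', ?_⟩
    have e : hm 0 u ^ (n + n') * (f + g) =
        hm 0 u ^ n' * (hm 0 u ^ n * f) + hm 0 u ^ n * (hm 0 u ^ n' * g) := by ring
    rw [e]
    exact Subalgebra.add_mem _ (Subalgebra.mul_mem _ (Subalgebra.pow_mem _ hU _) hn)
      (Subalgebra.mul_mem _ (Subalgebra.pow_mem _ hU _) hn')
  · rintro f _ g _ ⟨n, hn⟩ ⟨n', hn'⟩
    refine ⟨n + n', ?_⟩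
    have e : hm 0 u ^ (n + n') * (f * g) = (hm 0 u ^ n * f) * (hm 0 u ^ n' * g) := by ring
    rw [e]
    exact Subalgebra.mul_mem _ hn hn'

end fin

end

section charts

variable {m : ℕ} {z : Fin (m + 1) → K} {d : ℕ} {Φ Φ' : K}

lemma AF_glue (hΦ : Φ ≠ 0) (hΦ' : Φ' ∈ FS O z d) (hΦ'0 : Φ' ≠ 0) :
    ∀ b ∈ AF O z d Φ', ∃ n : ℕ, (Φ' / Φ) ^ n * b ∈ AF O z d Φ := by
  have hu : Φ' / Φ ∈ AF O z d Φ := FS_AF hΦ'
  intro b hb
  unfold AF at hb
  induction hb using Algebra.adjoin_induction with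
  | mem y hy =>
    obtain ⟨x, hx, rfl⟩ := hy
    refine ⟨1, ?_⟩
    have e : (Φ' / Φ) ^ 1 * (x / Φ') = x / Φ := by
      rw [pow_one]
      field_simp
    rw [e]
    exact Algebra.subset_adjoin ⟨x, hx, rfl⟩
  | algebraMap r => exact ⟨0, by rw [pow_zero, one_mul]; exact Subalgebra.algebraMap_mem _ r⟩
  | add x y _ _ hx hy =>
    obtain ⟨n, hn⟩ := hx
    obtain ⟨n', hn'⟩ := hy
    refine ⟨n + n', ?_⟩
    have e : (Φ' / Φ) ^ (n + n') * (x + y) =
        (Φ' / Φ) ^ n' * ((Φ' / Φ) ^ n * x) + (Φ' / Φ) ^ n * ((Φ' / Φ) ^ n' * y) := by ring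
    rw [e]
    exact Subalgebra.add_mem _ (Subalgebra.mul_mem _ (Subalgebra.pow_mem _ hu _) hn)
      (Subalgebra.mul_mem _ (Subalgebra.pow_mem _ hu _) hn')
  | mul x y _ _ hx hy =>
    obtain ⟨n, hn⟩ := hx
    obtain ⟨n', hn'⟩ := hy
    refine ⟨n + n', ?_⟩
    have e : (Φ' / Φ) ^ (n + n') * (x * y) =
        ((Φ' / Φ) ^ n * x) * ((Φ' / Φ) ^ n' * y) := by ring
    rw [e]
    exact Subalgebra.mul_mem _ hn hn'

/-- The field of fractions of a chart. -/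
lemma AF_frac (hz : ∀ j, z j ≠ 0) (hΦ0 : Φ ≠ 0) (hd : 1 ≤ d)
    (hfr : ∀ S : Subfield K, (∀ o : O, algebraMap O K o ∈ S) → (∀ i j, z i / z j ∈ S) → S = ⊤)
    (y : K) : ∃ b ∈ AF O z d Φ, ∃ c ∈ AF O z d Φ, c ≠ 0 ∧ y = b / c := by
  classical
  set A := AF O z d Φ with hA
  have hcl : Subring.closure (A : Set K) = A.toSubring := Subring.closure_eq A.toSubring
  have h1 : Subfield.closure (A : Set K) = ⊤ := by
    refine hfr _ (fun o => Subfield.subset_closure (Subalgebra.algebraMap_mem A o)) ?_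
    intro i j
    obtain ⟨h2, h3, h4⟩ := AF_ratio (O := O) hz hΦ0 hd i j
    rw [h4]
    exact div_mem (Subfield.subset_closure h2) (Subfield.subset_closure h3)
  have h2 : y ∈ Subfield.closure (A : Set K) := by
    rw [h1]
    exact Subfield.mem_top _
  rw [Subfield.mem_closure_iff, hcl] at h2
  obtain ⟨b, hb, c, hc, hbc⟩ := h2
  by_cases hc0 : c = 0
  · refine ⟨0, Subalgebra.zero_mem _, 1, Subalgebra.one_mem _, one_ne_zero, ?_⟩
    rw [← hbc, hc0, div_zero, zero_div]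
  · exact ⟨b, hb, c, hc, hc0, hbc.symm⟩

end charts

end Pool.Agent.N864.GQ
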