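import Mathlib

/-!
# The ideals of the fixed points of the elements of a finite group
-/

set_option autoImplicit false
set_option linter.unusedSectionVars false
set_option linter.unusedVariables false

namespace Pool.Agent.N864.GQ

variable {O K G : Type} [CommRing O] [Field K] [Algebra O K] [Group G]
  {ρ : G →* (K ≃ₐ[O] K)} {A : Subalgebra O K}

/-- The action on a stable subring. -/
def act (hst : ∀ g, ∀ a ∈ A, ρ g a ∈ A) (g : G) : A →+* A where
  toFun a := ⟨ρ g a, hst g a a.2⟩
  map_one' := Subtype.ext (map_one (ρ g))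
  map_zero' := Subtype.ext (map_zero (ρ g))
  map_mul' a b := Subtype.ext (map_mul (ρ g) (a : K) (b : K))
  map_add' a b := Subtype.ext (map_add (ρ g) (a : K) (b : K))

variable (hst : ∀ g, ∀ a ∈ A, ρ g a ∈ A)

lemma act_coe (g : G) (a : A) : (act hst g a : K) = ρ g a := rfl

lemma act_mul (g h : G) (a : A) : act hst (g * h) a = act hst g (act hst h a) := by
  apply Subtype.ext
  rw [act_coe, act_coe, act_coe, map_mul]
  rfl

lemma act_one (a : A) : act hst 1 a = a := by
  apply Subtype.ext
  rw [act_coe, map_one]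
  rfl

/-- The ideal of the fixed points. -/
def fixI (g : G) : Ideal A := Ideal.span {x | ∃ a : A, x = act hst g a - a}

lemma fixI_mem (g : G) (a : A) : act hst g a - a ∈ fixI hst g := Ideal.subset_span ⟨a, rfl⟩

lemma fixI_pow_le (g : G) (n : ℕ) : fixI hst (g ^ n) ≤ fixI hst g := by
  unfold fixI
  rw [Ideal.span_le]
  rintro _ ⟨a, rfl⟩
  change _ ∈ fixI hst g
  induction n with
  | zero => rw [pow_zero, act_one, sub_self]; exact Ideal.zero_mem _
  | succ n ih =>
    rw [pow_succ', act_mul]
    have h1 : act hst g (act hst (g ^ n) a) - a =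
        (act hst g (act hst (g ^ n) a) - act hst (g ^ n) a) + (act hst (g ^ n) a - a) := by ring
    rw [h1]
    exact Ideal.add_mem _ (fixI_mem hst g _) ih

lemma fixI_conj (g h : G) : (fixI hst g).map (act hst h) ≤ fixI hst (h * g * h⁻¹) := by
  rw [fixI, Ideal.map_span, Ideal.span_le]
  rintro _ ⟨_, ⟨a, rfl⟩, rfl⟩
  have h1 : act hst h (act hst g a - a) =
      act hst (h * g * h⁻¹) (act hst h a) - act hst h a := by
    rw [map_sub, ← act_mul, ← act_mul]
    congr 2
    group
  rw [h1]
  exact fixI_mem hst _ _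

section fin

variable [Fintype G]

open scoped Classical in
/-- The product of the ideals of the fixed points. -/
noncomputable def II : Ideal A := ∏ g ∈ Finset.univ.filter (fun g : G => g ≠ 1), fixI hst g

lemma II_map (h : G) : (II hst).map (act hst h) ≤ II hst := by
  classical
  have h1 : ∀ s : Finset G, (∏ g ∈ s, fixI hst g).map (act hst h) =
      ∏ g ∈ s, (fixI hst g).map (act hst h) := by
    intro s
    induction s using Finset.induction_on with
    | empty =>
      rw [Finset.prod_empty, Finset.prod_empty, Ideal.one_eq_top, Ideal.map_top]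
    | insert a s ha ih => rw [Finset.prod_insert ha, Finset.prod_insert ha, Ideal.map_mul, ih]
  unfold II
  rw [h1]
  calc ∏ g ∈ Finset.univ.filter (fun g : G => g ≠ 1), (fixI hst g).map (act hst h)
      ≤ ∏ g ∈ Finset.univ.filter (fun g : G => g ≠ 1), fixI hst (h * g * h⁻¹) :=
        Finset.prod_le_prod' fun g _ => fixI_conj hst g h
    _ = ∏ g ∈ Finset.univ.filter (fun g : G => g ≠ 1), fixI hst g := by
        refine Finset.prod_bij' (fun g _ => h * g * h⁻¹) (fun g _ => h⁻¹ * g * h) ?_ ?_ ?_ ?_ ?_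
        · intro g hg
          rw [Finset.mem_filter] at hg ⊢
          refine ⟨Finset.mem_univ _, fun h2 => hg.2 ?_⟩
          rwa [conj_eq_one_iff] at h2
        · intro g hg
          rw [Finset.mem_filter] at hg ⊢
          refine ⟨Finset.mem_univ _, fun h2 => hg.2 ?_⟩
          have h3 : g = h * (h⁻¹ * g * h) * h⁻¹ := by group
          rw [h3, h2]
          group
        · intro g _
          group
        · intro g _
          group
        · intro g _
          rfl

/-- The ideal which is blown up. -/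
noncomputable def AI : Ideal A := II hst ^ Nat.card G

lemma AI_act {x : A} (hx : x ∈ AI hst) (h : G) : act hst h x ∈ AI hst := by
  have h1 : (AI hst).map (act hst h) ≤ AI hst := by
    unfold AI
    rw [Ideal.map_pow]
    exact Ideal.pow_right_mono (II_map hst h) _
  exact h1 (Ideal.mem_map_of_mem _ hx)

/-- The ideal `I` contains an element not in the prime ideal `q` if the inertia group is
trivial. -/
lemma II_not_le (q : Ideal A) (hq : q.IsPrime) (h : ∀ g : G, fixI hst g ≤ q → g = 1) :
    ∃ v ∈ AI hst, v ∉ q := by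
  classical
  by_contra hcon
  push Not at hcon
  have h1 : II hst ^ Nat.card G ≤ q := hcon
  have h2 : II hst ≤ q := hq.le_of_pow_le h1
  unfold II at h2
  rw [hq.prod_le] at h2
  obtain ⟨g, hg, hgq⟩ := h2
  rw [Finset.mem_filter] at hg
  exact hg.2 (h g hgq)

open scoped Classical in
/-- The product of the ideals of the fixed points of the elements outside of a cyclic group. -/
noncomputable def VV (τ : G) : Ideal A :=
  ∏ g ∈ Finset.univ.filter (fun g : G => g ∉ Subgroup.zpowers τ), fixI hst g

lemma fixI_eq {τ h : G} {p : ℕ} (hp : p.Prime) (hτ : τ ^ p = 1) (hτ1 : τ ≠ 1)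
    (hh : h ∈ Subgroup.zpowers τ) (hh1 : h ≠ 1) : fixI hst h = fixI hst τ := by
  have hfp : Fact p.Prime := ⟨hp⟩
  have ho : orderOf τ = p := orderOf_eq_prime hτ hτ1
  have hcard : Nat.card (Subgroup.zpowers τ) = p := by rw [Nat.card_zpowers, ho]
  have h1 : (⟨τ, Subgroup.mem_zpowers τ⟩ : Subgroup.zpowers τ) ∈
      Submonoid.powers (⟨h, hh⟩ : Subgroup.zpowers τ) :=
    mem_powers_of_prime_card hcard (fun h2 => hh1 (congrArg Subtype.val h2))
  have h2 : (⟨h, hh⟩ : Subgroup.zpowers τ) ∈
      Submonoid.powers (⟨τ, Subgroup.mem_zpowers τ⟩ : Subgroup.zpowers τ) :=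
    mem_powers_of_prime_card hcard (fun h2 => hτ1 (congrArg Subtype.val h2))
  obtain ⟨m, hm⟩ := h1
  obtain ⟨n, hn⟩ := h2
  have hm' : h ^ m = τ := congrArg Subtype.val hm
  have hn' : τ ^ n = h := congrArg Subtype.val hn
  apply le_antisymm
  · rw [← hn']
    exact fixI_pow_le hst τ n
  · conv_lhs => rw [← hm']
    exact fixI_pow_le hst h m

/-- The ideal `I` and the elements of a cyclic group of prime order. -/
theorem AI_eq {τ : G} {p : ℕ} (hp : p.Prime) (hτ : τ ^ p = 1) (hτ1 : τ ≠ 1) :
    ∃ m : ℕ, 1 ≤ m ∧ p ∣ m ∧ ∃ n : ℕ, AI hst = fixI hst τ ^ m * VV hst τ ^ n := by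
  classical
  have hfp : Fact p.Prime := ⟨hp⟩
  have ho : orderOf τ = p := orderOf_eq_prime hτ hτ1
  set m₀ := ((Finset.univ.filter (fun g : G => g ≠ 1)).filter
    (fun g => g ∈ Subgroup.zpowers τ)).card with hm₀
  have h1 : II hst = fixI hst τ ^ m₀ * VV hst τ := by
    unfold II VV
    rw [← Finset.prod_filter_mul_prod_filter_not (Finset.univ.filter (fun g : G => g ≠ 1))
      (fun g => g ∈ Subgroup.zpowers τ)]
    congr 1
    · rw [← Finset.prod_const]
      refine Finset.prod_congr rfl fun g hg => ?_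
      rw [Finset.mem_filter, Finset.mem_filter] at hg
      exact fixI_eq hst hp hτ hτ1 hg.2 hg.1.2
    · refine Finset.prod_congr ?_ fun g _ => rfl
      ext g
      simp only [Finset.mem_filter, Finset.mem_univ, true_and]
      constructor
      · exact fun h => h.2
      · exact fun h => ⟨fun h2 => h (h2 ▸ Subgroup.one_mem _), h⟩
  have h2 : 1 ≤ m₀ := by
    rw [hm₀, Nat.one_le_iff_ne_zero, Finset.card_ne_zero]
    exact ⟨τ, by simp [hτ1]⟩
  have h3 : p ∣ Nat.card G := ho ▸ orderOf_dvd_natCard τ
  have h4 : 0 < Nat.card G := Nat.card_pos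
  refine ⟨m₀ * Nat.card G, Nat.one_le_iff_ne_zero.2 (Nat.mul_ne_zero (by omega) (by omega)),
    Dvd.dvd.mul_left h3 _, Nat.card G, ?_⟩
  unfold AI
  rw [h1, mul_pow, pow_mul]

/-- The other elements. -/
lemma VV_not_le {τ : G} (q : Ideal A) (hq : q.IsPrime)
    (h : ∀ g : G, fixI hst g ≤ q → g ∈ Subgroup.zpowers τ) (n : ℕ) :
    ∃ v ∈ VV hst τ ^ n, v ∉ q := by
  classical
  by_contra hcon
  push Not at hcon
  have h1 : VV hst τ ^ n ≤ q := hcon
  have h2 : VV hst τ ≤ q := by
    rcases Nat.eq_zero_or_pos n with h0 | h0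
    · rw [h0, pow_zero, Ideal.one_eq_top, top_le_iff] at h1
      exact absurd h1 hq.ne_top
    · exact hq.le_of_pow_le h1
  unfold VV at h2
  rw [hq.prod_le] at h2
  obtain ⟨g, hg, hgq⟩ := h2
  rw [Finset.mem_filter] at hg
  exact hg.2 (h g hgq)

end fin

end Pool.Agent.N864.GQ
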