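import Pool.Agent.Y223.G.Defs
import Pool.Agent.N864.GQ.Ideals

/-!
# The extended Rees algebra of an ideal
-/

set_option autoImplicit false
set_option linter.unusedSectionVars false
set_option linter.unusedVariables false

namespace Pool.Agent.N864.GQ

open Pool.Agent.Y223.G

variable {O K : Type} [CommRing O] [Field K] [Algebra O K] {A : Subalgebra O K} (𝔞 : Ideal A)

/-- The extended Rees algebra of the ideal `𝔞`. -/
def RI : Subalgebra O (LP K) where
  carrier := {f | ∀ d : ℤ, ∃ b ∈ 𝔞 ^ d.toNat, (b : K) = f.coeff d}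
  mul_mem' := by
    intro f g hf hg d
    rw [eq_sum_hm f, Finset.sum_mul, AddMonoidAlgebra.coeff_sum, Finsupp.finsetSum_apply]
    have h1 : ∀ a : ℤ, ∃ b ∈ 𝔞 ^ d.toNat, (b : K) = (hm a (f.coeff a) * g).coeff d := by
      intro a
      obtain ⟨b, hb, hb'⟩ := hf a
      obtain ⟨c, hc, hc'⟩ := hg (d - a)
      refine ⟨b * c, ?_, by rw [coeff_hm_mul, ← hb', ← hc']; rfl⟩
      refine Ideal.pow_le_pow_right (m := d.toNat) (n := a.toNat + (d - a).toNat) (by omega) ?_
      rw [pow_add]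
      exact Ideal.mul_mem_mul hb hc
    choose b hb hb' using h1
    refine ⟨∑ a ∈ f.coeff.support, b a, Ideal.sum_mem _ fun a _ => hb a, ?_⟩
    rw [AddSubmonoidClass.coe_finsetSum]
    exact Finset.sum_congr rfl fun a _ => hb' a
  add_mem' := by
    intro f g hf hg d
    obtain ⟨b, hb, hb'⟩ := hf d
    obtain ⟨c, hc, hc'⟩ := hg d
    exact ⟨b + c, Ideal.add_mem _ hb hc, by
      rw [AddMonoidAlgebra.coeff_add, Finsupp.add_apply, ← hb', ← hc']; rfl⟩
  algebraMap_mem' := by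
    intro r d
    rw [algebraMap_LP, coeff_hm]
    split_ifs with h
    · subst h
      refine ⟨algebraMap O A r, ?_, rfl⟩
      change _ ∈ 𝔞 ^ 0
      rw [pow_zero, Ideal.one_eq_top]
      trivial
    · exact ⟨0, Ideal.zero_mem _, rfl⟩

variable {𝔞}

lemma hm_mem_RI {d : ℤ} {b : A} (hb : b ∈ 𝔞 ^ d.toNat) : hm d (b : K) ∈ RI 𝔞 := by
  intro e
  rw [coeff_hm]
  split_ifs with h
  · subst h
    exact ⟨b, hb, rfl⟩
  · exact ⟨0, Ideal.zero_mem _, rfl⟩

lemma hm_nat_RI {d : ℕ} {b : A} (hb : b ∈ 𝔞 ^ d) : hm (d : ℤ) (b : K) ∈ RI 𝔞 :=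
  hm_mem_RI (by rwa [Int.toNat_natCast])

lemma hm_one_RI {b : A} (hb : b ∈ 𝔞) : hm 1 (b : K) ∈ RI 𝔞 :=
  hm_mem_RI (by
    change b ∈ 𝔞 ^ 1
    rwa [pow_one])

lemma gr_RI : Gr (RI 𝔞) := by
  intro f hf d
  obtain ⟨b, hb, hb'⟩ := hf d
  rw [← hb']
  exact hm_mem_RI hb

lemma b_RI (b : A) : hm 0 (b : K) ∈ RI 𝔞 :=
  hm_mem_RI (by
    change _ ∈ 𝔞 ^ 0
    rw [pow_zero, Ideal.one_eq_top]; trivial)

lemma s_RI : hm (-1) 1 ∈ RI 𝔞 :=
  hm_mem_RI (d := -1) (b := 1) (by
    change _ ∈ 𝔞 ^ 0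
    rw [pow_zero, Ideal.one_eq_top]; trivial)

lemma of_hm_RI {d : ℤ} {a : K} (h : hm d a ∈ RI 𝔞) : ∃ b ∈ 𝔞 ^ d.toNat, (b : K) = a := by
  obtain ⟨b, hb, hb'⟩ := h d
  rw [coeff_hm_same] at hb'
  exact ⟨b, hb, hb'⟩

/-- Induction on the elements of the Rees algebra. -/
theorem RI_induction {p : LP K → Prop} (h0 : ∀ b : A, p (hm 0 (b : K))) (hs : p (hm (-1) 1))
    (h1 : ∀ w ∈ 𝔞, p (hm 1 (w : K))) (hadd : ∀ f ∈ RI 𝔞, ∀ g ∈ RI 𝔞, p f → p g → p (f + g))
    (hmul : ∀ f ∈ RI 𝔞, ∀ g ∈ RI 𝔞, p f → p g → p (f * g)) : ∀ f ∈ RI 𝔞, p f := by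
  have hz : p 0 := by
    have := h0 0
    rwa [ZeroMemClass.coe_zero, hm_zero] at this
  have hn : ∀ (n : ℕ), ∀ b ∈ 𝔞 ^ n, p (hm (n : ℤ) (b : K)) := by
    intro n
    induction n with
    | zero => exact fun b _ => h0 b
    | succ n ih =>
      intro b hb
      rw [pow_succ] at hb
      induction hb using Submodule.mul_induction_on' with
      | mem_mul_mem m hm' w hw =>
        have e : (hm ((n + 1 : ℕ) : ℤ) ((m * w : A) : K) : LP K) = hm (n : ℤ) (m : K) * hm 1 (w : K) := by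
          rw [hm_mul]
          push_cast
          rfl
        rw [e]
        exact hmul _ (hm_nat_RI hm') _ (hm_one_RI hw) (ih _ hm') (h1 w hw)
      | add x hx y hy hx' hy' =>
        rw [← pow_succ] at hx hy
        rw [AddMemClass.coe_add, hm_add]
        exact hadd _ (hm_nat_RI hx) _ (hm_nat_RI hy) hx' hy'
  have hneg : ∀ n : ℕ, p (hm (-(n : ℤ)) 1) ∧ hm (-(n : ℤ)) (1 : K) ∈ RI 𝔞 := by
    intro n
    induction n with
    | zero =>
      rw [Nat.cast_zero, neg_zero]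
      have := h0 1
      rw [OneMemClass.coe_one] at this
      have h2 := b_RI (𝔞 := 𝔞) 1
      rw [OneMemClass.coe_one] at h2
      exact ⟨this, h2⟩
    | succ n ih =>
      have e : (hm (-((n + 1 : ℕ) : ℤ)) (1 : K) : LP K) = hm (-(n : ℤ)) 1 * hm (-1) 1 := by
        rw [hm_mul, mul_one]
        congr 1
        push_cast
        ring
      rw [e]
      exact ⟨hmul _ ih.2 _ s_RI ih.1 hs, Subalgebra.mul_mem _ ih.2 s_RI⟩
  intro f hf
  have hcomp : ∀ d : ℤ, p (hm d (f.coeff d)) := by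
    intro d
    obtain ⟨b, hb, hb'⟩ := hf d
    rw [← hb']
    rcases le_or_gt 0 d with h | h
    · obtain ⟨n, rfl⟩ := Int.eq_ofNat_of_zero_le h
      rw [Int.toNat_natCast] at hb
      exact hn n b hb
    · obtain ⟨n, hn⟩ := Int.eq_ofNat_of_zero_le (a := -d) (by omega)
      have hd : d = -(n : ℤ) := by
        have : -d = (n : ℤ) := hn
        omega
      have e : (hm d (b : K) : LP K) = hm (-(n : ℤ)) 1 * hm 0 (b : K) := by
        rw [hm_mul, one_mul, hd, add_zero]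
      rw [e]
      exact hmul _ (hneg n).2 _ (b_RI b) (hneg n).1 (h0 b)
  have hsum : ∀ s : Finset ℤ, p (∑ d ∈ s, hm d (f.coeff d)) ∧
      ∑ d ∈ s, hm d (f.coeff d) ∈ RI 𝔞 := by
    classical
    intro s
    induction s using Finset.induction_on with
    | empty => exact ⟨by rwa [Finset.sum_empty], by rw [Finset.sum_empty]; exact Subalgebra.zero_mem _⟩
    | insert d s hd ih =>
      rw [Finset.sum_insert hd]
      exact ⟨hadd _ (gr_RI f hf d) _ ih.2 (hcomp d) ih.1, Subalgebra.add_mem _ (gr_RI f hf d) ih.2⟩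
  rw [eq_sum_hm f]
  exact (hsum _).1

lemma ft_RI [IsNoetherianRing O] [hft : Algebra.FiniteType O A] :
    Algebra.FiniteType O (RI 𝔞) := by
  classical
  have hN : IsNoetherianRing A := Algebra.FiniteType.isNoetherianRing O A
  rw [← Subalgebra.fg_iff_finiteType]
  obtain ⟨s, hs⟩ := hft.out
  obtain ⟨t, ht⟩ := (IsNoetherian.noetherian 𝔞 : 𝔞.FG)
  let G : Finset (LP K) := {hm (-1) 1} ∪ s.image (fun b : A => hm 0 (b : K)) ∪
    t.image (fun w : A => hm 1 (w : K))
  refine ⟨G, ?_⟩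
  set B := Algebra.adjoin O (G : Set (LP K)) with hB
  have hBs : (hm (-1) 1 : LP K) ∈ B := Algebra.subset_adjoin (by simp [G])
  have hBb : ∀ b : A, (hm 0 (b : K) : LP K) ∈ B := by
    intro b
    have hb : b ∈ Algebra.adjoin O (s : Set A) := by rw [hs]; trivial
    induction hb using Algebra.adjoin_induction with
    | mem x hx =>
      refine Algebra.subset_adjoin ?_
      simp only [G, Finset.coe_union, Finset.coe_image]
      exact Or.inl (Or.inr ⟨x, hx, rfl⟩)
    | algebraMap r =>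
      have e : ((algebraMap O A r : A) : K) = algebraMap O K r := rfl
      rw [e, ← algebraMap_LP]
      exact B.algebraMap_mem r
    | add x y _ _ hx hy =>
      rw [AddMemClass.coe_add, hm_add]
      exact B.add_mem hx hy
    | mul x y _ _ hx hy =>
      have e : (hm 0 ((x * y : A) : K) : LP K) = hm 0 (x : K) * hm 0 (y : K) := by
        rw [hm_mul, add_zero]
        rfl
      rw [e]; exact B.mul_mem hx hy
  have hBw : ∀ w ∈ 𝔞, (hm 1 (w : K) : LP K) ∈ B := by
    intro w hw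
    rw [← ht] at hw
    induction hw using Submodule.span_induction with
    | mem x hx =>
      refine Algebra.subset_adjoin ?_
      simp only [G, Finset.coe_union, Finset.coe_image]
      exact Or.inr ⟨x, hx, rfl⟩
    | zero => rw [ZeroMemClass.coe_zero, hm_zero]; exact B.zero_mem
    | add x y _ _ hx hy => rw [AddMemClass.coe_add, hm_add]; exact B.add_mem hx hy
    | smul r x _ hx =>
      have e : (hm 1 ((r • x : A) : K) : LP K) = hm 0 (r : K) * hm 1 (x : K) := by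
        rw [hm_mul, zero_add]
        rfl
      rw [e]; exact B.mul_mem (hBb r) hx
  apply le_antisymm
  · rw [hB, Algebra.adjoin_le_iff]
    intro f hf
    simp only [G, Finset.coe_union, Finset.coe_image, Finset.coe_singleton] at hf
    rcases hf with (hf | ⟨b, _, rfl⟩) | ⟨w, hw, rfl⟩
    · rw [Set.mem_singleton_iff] at hf
      rw [hf]
      exact s_RI
    · exact b_RI b
    · exact hm_one_RI (by rw [← ht]; exact Submodule.subset_span hw)
  · exact RI_induction hBb hBs hBw (fun f _ g _ hf hg => B.add_mem hf hg)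
      (fun f _ g _ hf hg => B.mul_mem hf hg)

/-- Elements of degree one which are not in a prime. -/
theorem exists_deg_one (Q : Ideal (RI 𝔞)) (hQ : Q.IsPrime) {e : ℕ} {η : K}
    (he : hm (e : ℤ) η ∈ RI 𝔞) (h0 : 0 < e) (hη : (⟨_, he⟩ : RI 𝔞) ∉ Q) :
    ∃ (w : A) (hw : w ∈ 𝔞), (⟨_, hm_one_RI hw⟩ : RI 𝔞) ∉ Q := by
  by_contra hcon
  push Not at hcon
  have key : ∀ (n : ℕ), ∀ b ∈ 𝔞 ^ (n + 1), ∀ h : hm ((n + 1 : ℕ) : ℤ) (b : K) ∈ RI 𝔞,
      (⟨_, h⟩ : RI 𝔞) ∈ Q := by
    intro n b hb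
    rw [pow_succ] at hb
    induction hb using Submodule.mul_induction_on' with
    | mem_mul_mem m hm' w hw =>
      intro h
      have e : (⟨_, h⟩ : RI 𝔞) = ⟨_, hm_nat_RI hm'⟩ * ⟨_, hm_one_RI hw⟩ := by
        apply Subtype.ext
        change (hm ((n + 1 : ℕ) : ℤ) ((m * w : A) : K) : LP K) = hm (n : ℤ) (m : K) * hm 1 (w : K)
        rw [hm_mul]
        push_cast
        rfl
      rw [e]
      exact Q.mul_mem_left _ (hcon w hw)
    | add x hx y hy hx' hy' =>
      rw [← pow_succ] at hx hy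
      intro h
      have e : (⟨_, h⟩ : RI 𝔞) = ⟨_, hm_nat_RI hx⟩ + ⟨_, hm_nat_RI hy⟩ := by
        apply Subtype.ext
        change (hm ((n + 1 : ℕ) : ℤ) ((x + y : A) : K) : LP K) = _
        rw [AddMemClass.coe_add, hm_add]
        rfl
      rw [e]
      exact Q.add_mem (hx' _) (hy' _)
  obtain ⟨b, hb, hb'⟩ := of_hm_RI he
  rw [Int.toNat_natCast] at hb
  subst hb'
  obtain ⟨n, rfl⟩ : ∃ n, e = n + 1 := ⟨e - 1, by omega⟩
  exact hη (key n b hb he)

end Pool.Agent.N864.GQ
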