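import Pool.Agent.Y223.INV.Fin
import Pool.Agent.Y223.CC.Blow
import Pool.Agent.N864.GQ.Rees

/-!
# Local computations with the ideal of the fixed points
-/

set_option autoImplicit false
set_option linter.unusedSectionVars false
set_option linter.unusedVariables false

namespace Pool.Agent.N864.GQ

open IsLocalRing Pool.Agent.TH188.QS Pool.Agent.TH188.ARC Pool.Agent.W418.LU2
  Pool.Agent.Y223.G Pool.Agent.Y223.INV

section ring

variable {R : Type} [CommRing R] (t : R →+* R)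

/-- The ideal of the fixed points of a ring endomorphism. -/
def fixR : Ideal R := Ideal.span {x | ∃ y, x = t y - y}

variable {t}

lemma fixR_mem (y : R) : t y - y ∈ fixR t := Ideal.subset_span ⟨y, rfl⟩

lemma fixR_map : (fixR t).map t ≤ fixR t := by
  unfold fixR
  rw [Ideal.map_span, Ideal.span_le]
  rintro _ ⟨_, ⟨y, rfl⟩, rfl⟩
  rw [map_sub]
  exact fixR_mem (t y)

lemma fixR_pow_stable {n : ℕ} {x : R} (hx : x ∈ fixR t ^ n) : t x ∈ fixR t ^ n := by
  have h1 : (fixR t ^ n).map t ≤ fixR t ^ n := by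
    rw [Ideal.map_pow]
    exact Ideal.pow_right_mono fixR_map _
  exact h1 (Ideal.mem_map_of_mem _ hx)

/-- An automorphism of order `p` which acts as a scalar on the conormal module of the fixed points
is the identity on the powers of the ideal divisible by `p`, modulo the next power. -/
theorem sc_pow {p : ℕ} (u : R) (hu : ∀ x ∈ fixR t, t x - u * x ∈ fixR t ^ 2)
    (hp : ∀ x, t^[p] x = x) {M : ℕ} (hM : p ∣ M) {w : R} (hw : w ∈ fixR t ^ M) :
    t w - w ∈ fixR t ^ (M + 1) := by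
  have h1 : ∀ n : ℕ, ∀ w ∈ fixR t ^ n, t w - u ^ n * w ∈ fixR t ^ (n + 1) := by
    intro n
    induction n with
    | zero =>
      intro w _
      rw [pow_zero, one_mul, zero_add, pow_one]
      exact fixR_mem w
    | succ n ih =>
      intro w hw
      rw [pow_succ] at hw
      induction hw using Submodule.mul_induction_on' with
      | mem_mul_mem m hm' l hl =>
        have e : t (m * l) - u ^ (n + 1) * (m * l) =
            (t m - u ^ n * m) * t l + (u ^ n * m) * (t l - u * l) := by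
          rw [map_mul]
          ring
        rw [e]
        refine Ideal.add_mem _ ?_ ?_
        · rw [pow_succ (fixR t) (n + 1)]
          have h2 := fixR_pow_stable (n := 1) (x := l) (by rwa [pow_one])
          rw [pow_one] at h2
          exact Ideal.mul_mem_mul (ih m hm') h2
        · have e2 : n + 1 + 1 = n + 2 := rfl
          rw [e2, pow_add]
          exact Ideal.mul_mem_mul (Ideal.mul_mem_left _ _ hm') (hu l hl)
      | add x hx y hy hx' hy' =>
        have e : t (x + y) - u ^ (n + 1) * (x + y) =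
            (t x - u ^ (n + 1) * x) + (t y - u ^ (n + 1) * y) := by
          rw [map_add]
          ring
        rw [e]
        exact Ideal.add_mem _ hx' hy'
  have h2 : ∀ j : ℕ, ∀ l ∈ fixR t, t^[j] l - u ^ j * l ∈ fixR t ^ 2 := by
    intro j
    induction j with
    | zero =>
      intro l _
      rw [Function.iterate_zero, id, pow_zero, one_mul, sub_self]
      exact Ideal.zero_mem _
    | succ j ih =>
      intro l hl
      rw [Function.iterate_succ_apply']
      have e : t (t^[j] l) - u ^ (j + 1) * l = t (t^[j] l - u ^ j * l) +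
          (t (u ^ j) - u ^ j) * t l + u ^ j * (t l - u * l) := by
        rw [map_sub, map_mul]
        ring
      rw [e]
      refine Ideal.add_mem _ (Ideal.add_mem _ (fixR_pow_stable (ih l hl)) ?_)
        (Ideal.mul_mem_left _ _ (hu l hl))
      rw [pow_two]
      have h2 := fixR_pow_stable (n := 1) (x := l) (by rwa [pow_one])
      rw [pow_one] at h2
      exact Ideal.mul_mem_mul (fixR_mem _) h2
  have h3 : ∀ l ∈ fixR t, (u ^ p - 1) * l ∈ fixR t ^ 2 := by
    intro l hl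
    have h4 := h2 p l hl
    rw [hp] at h4
    have e : (u ^ p - 1) * l = -(l - u ^ p * l) := by ring
    rw [e]
    exact Submodule.neg_mem _ h4
  obtain ⟨k, rfl⟩ := hM
  obtain ⟨c, hc⟩ : (u ^ p - 1) ∣ (u ^ (p * k) - 1) := by
    rw [pow_mul]
    have := sub_dvd_pow_sub_pow (u ^ p) 1 k
    rwa [one_pow] at this
  have e : t w - w = (t w - u ^ (p * k) * w) + (u ^ (p * k) - 1) * w := by ring
  rw [e]
  refine Ideal.add_mem _ (h1 _ w hw) ?_
  rcases Nat.eq_zero_or_pos (p * k) with h0 | h0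
  · rw [h0, pow_zero, sub_self, zero_mul]
    exact Ideal.zero_mem _
  obtain ⟨M, hM⟩ : ∃ M, p * k = M + 1 := ⟨p * k - 1, by omega⟩
  rw [hc]
  rw [hM] at hw ⊢
  clear hM h0 hc e
  rw [pow_succ] at hw
  induction hw using Submodule.mul_induction_on' with
  | mem_mul_mem m hm' l hl =>
    have e : (u ^ p - 1) * c * (m * l) = (c * m) * ((u ^ p - 1) * l) := by ring
    rw [e]
    have e2 : M + 1 + 1 = M + 2 := rfl
    rw [e2, pow_add]
    exact Ideal.mul_mem_mul (Ideal.mul_mem_left _ _ hm') (h3 l hl)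
  | add x hx y hy hx' hy' =>
    rw [mul_add]
    exact Ideal.add_mem _ hx' hy'

/-- Involutions act as `-1`. -/
theorem sc_two (h2 : ∀ x, t (t x) = x) : ∀ x ∈ fixR t, t x - (-1) * x ∈ fixR t ^ 2 := by
  intro x hx
  have key : ∀ x ∈ fixR t, t x + x ∈ fixR t ^ 2 := by
    intro x hx
    have hx' := hx
    unfold fixR at hx
    induction hx using Submodule.span_induction with
    | mem x hx =>
      obtain ⟨y, rfl⟩ := hx
      rw [map_sub, h2]
      have : y - t y + (t y - y) = 0 := by ring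
      rw [this]
      exact Ideal.zero_mem _
    | zero => rw [map_zero, add_zero]; exact Ideal.zero_mem _
    | add a b ha hb ha' hb' =>
      have e : t (a + b) + (a + b) = (t a + a) + (t b + b) := by
        rw [map_add]
        ring
      rw [e]
      exact Ideal.add_mem _ (ha' ha) (hb' hb)
    | smul r a ha ha' =>
      rw [smul_eq_mul, map_mul]
      have e : t r * t a + r * a = (t r - r) * t a + r * (t a + a) := by ring
      rw [e]
      refine Ideal.add_mem _ ?_ (Ideal.mul_mem_left _ _ (ha' ha))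
      rw [pow_two]
      have h3 := fixR_pow_stable (n := 1) (x := a) (by rw [pow_one]; exact ha)
      rw [pow_one] at h3
      exact Ideal.mul_mem_mul (fixR_mem r) h3
  have e : t x - (-1) * x = t x + x := by ring
  rw [e]
  exact key x hx

end ring

section val

variable {O K G : Type} [CommRing O] [Field K] [Algebra O K] [Group G]
  {ρ : G →* (K ≃ₐ[O] K)} {A : Subalgebra O K} {W : ValuationSubring K}

/-- The points which are fixed. -/
lemma fx_lo {σ : K ≃ₐ[O] K} (hAW : A.toSubring ≤ W.toSubring) (hσA : ∀ a ∈ A, σ a ∈ A)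
    (h : ∀ a ∈ A, NU W.toSubring (σ a - a)) :
    Fx σ W (lo W.toSubring A.toSubring) := by
  rintro x ⟨c, hc, d, hd, hd0, hdW, rfl⟩
  obtain ⟨hsd0, hsdW⟩ := unit_of_sub (hAW hd) hd0 hdW (hAW (hσA d hd)) (h d hd)
  rw [map_mul, map_inv₀]
  refine ⟨⟨σ c, hσA c hc, σ d, hσA d hd, hsd0, hsdW, rfl⟩, ?_⟩
  have h2 : σ c * (σ d)⁻¹ - c * d⁻¹ =
      ((σ d)⁻¹ * d⁻¹ * d) * (σ c - c) + (-((σ d)⁻¹ * d⁻¹ * c)) * (σ d - d) := by
    field_simp
    ring
  rw [h2]
  have hW1 : (σ d)⁻¹ * d⁻¹ ∈ W.toSubring := W.mul_mem _ _ hsdW hdW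
  refine NU.add (loc_V W) ?_ ?_ (NU.mul (W.mul_mem _ _ hW1 (hAW hd)) (h c hc))
    (NU.mul (W.neg_mem _ (W.mul_mem _ _ hW1 (hAW hc))) (h d hd))
  · exact W.mul_mem _ _ (W.mul_mem _ _ hW1 (hAW hd)) (W.toSubring.sub_mem (hAW (hσA c hc)) (hAW hc))
  · exact W.mul_mem _ _ (W.neg_mem _ (W.mul_mem _ _ hW1 (hAW hc)))
      (W.toSubring.sub_mem (hAW (hσA d hd)) (hAW hd))

/-- The automorphism of the local ring of a fixed point. -/
def qact {σ : K ≃ₐ[O] K} {Q : Subring K} (h : Fx σ W Q) : Q →+* Q where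
  toFun a := ⟨σ a, (h a a.2).1⟩
  map_one' := Subtype.ext (map_one σ)
  map_zero' := Subtype.ext (map_zero σ)
  map_mul' a b := Subtype.ext (map_mul σ (a : K) (b : K))
  map_add' a b := Subtype.ext (map_add σ (a : K) (b : K))

lemma qact_coe {σ : K ≃ₐ[O] K} {Q : Subring K} (h : Fx σ W Q) (a : Q) :
    (qact h a : K) = σ a := rfl

variable (hst : ∀ g, ∀ a ∈ A, ρ g a ∈ A) (hAW : A.toSubring ≤ W.toSubring) {τ : G}

include hAW in
/-- Clearing of denominators. -/
theorem clear_den (hF : Fx (ρ τ) W (lo W.toSubring A.toSubring)) (n : ℕ) :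
    ∀ x ∈ fixR (qact hF) ^ n, ∃ s : A, (s : K) ≠ 0 ∧ (s : K)⁻¹ ∈ W ∧
      ∃ a ∈ fixI hst τ ^ n, (s : K) * (x : K) = a := by
  have hadd : ∀ (I : Ideal A) (x y : lo W.toSubring A.toSubring),
      (∃ s : A, (s : K) ≠ 0 ∧ (s : K)⁻¹ ∈ W ∧ ∃ a ∈ I, (s : K) * (x : K) = a) →
      (∃ s : A, (s : K) ≠ 0 ∧ (s : K)⁻¹ ∈ W ∧ ∃ a ∈ I, (s : K) * (y : K) = a) →
      ∃ s : A, (s : K) ≠ 0 ∧ (s : K)⁻¹ ∈ W ∧ ∃ a ∈ I, (s : K) * ((x + y :
        lo W.toSubring A.toSubring) : K) = a := by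
    rintro I x y ⟨s, hs0, hsW, a, ha, hsa⟩ ⟨s', hs0', hsW', a', ha', hsa'⟩
    refine ⟨s * s', mul_ne_zero hs0 hs0', ?_, s' * a + s * a',
      Ideal.add_mem _ (Ideal.mul_mem_left _ _ ha) (Ideal.mul_mem_left _ _ ha'), ?_⟩
    · change ((s : K) * (s' : K))⁻¹ ∈ W
      rw [mul_inv]
      exact W.mul_mem _ _ hsW hsW'
    · change (s : K) * (s' : K) * ((x : K) + (y : K)) = (s' : K) * (a : K) + (s : K) * (a' : K)
      rw [← hsa, ← hsa']
      ring
  have hmul : ∀ (I J : Ideal A) (x y : lo W.toSubring A.toSubring),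
      (∃ s : A, (s : K) ≠ 0 ∧ (s : K)⁻¹ ∈ W ∧ ∃ a ∈ I, (s : K) * (x : K) = a) →
      (∃ s : A, (s : K) ≠ 0 ∧ (s : K)⁻¹ ∈ W ∧ ∃ a ∈ J, (s : K) * (y : K) = a) →
      ∃ s : A, (s : K) ≠ 0 ∧ (s : K)⁻¹ ∈ W ∧ ∃ a ∈ I * J, (s : K) * ((x * y :
        lo W.toSubring A.toSubring) : K) = a := by
    rintro I J x y ⟨s, hs0, hsW, a, ha, hsa⟩ ⟨s', hs0', hsW', a', ha', hsa'⟩
    refine ⟨s * s', mul_ne_zero hs0 hs0', ?_, a * a', Ideal.mul_mem_mul ha ha', ?_⟩
    · change ((s : K) * (s' : K))⁻¹ ∈ W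
      rw [mul_inv]
      exact W.mul_mem _ _ hsW hsW'
    · change (s : K) * (s' : K) * ((x : K) * (y : K)) = (a : K) * (a' : K)
      rw [← hsa, ← hsa']
      ring
  have h0 : ∀ x : lo W.toSubring A.toSubring, ∃ s : A, (s : K) ≠ 0 ∧ (s : K)⁻¹ ∈ W ∧
      ∃ a ∈ (⊤ : Ideal A), (s : K) * (x : K) = a := by
    rintro ⟨x, a, ha, b, hb, hb0, hbW, rfl⟩
    refine ⟨⟨b, hb⟩, hb0, hbW, ⟨a, ha⟩, trivial, ?_⟩
    change b * (a * b⁻¹) = a
    field_simp
  have h1 : ∀ x ∈ fixR (qact hF), ∃ s : A, (s : K) ≠ 0 ∧ (s : K)⁻¹ ∈ W ∧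
      ∃ a ∈ fixI hst τ, (s : K) * (x : K) = a := by
    intro x hx
    unfold fixR at hx
    induction hx using Submodule.span_induction with
    | mem x hx =>
      obtain ⟨⟨y, a, ha, b, hb, hb0, hbW, rfl⟩, rfl⟩ := hx
      have hbQ : b ∈ lo W.toSubring A.toSubring := le_lo _ _ hb
      obtain ⟨hsd0, hsdW⟩ := unit_of_sub (hAW hb) hb0 hbW (hAW (hst τ b hb)) (hF b hbQ).2
      let a' : A := ⟨a, ha⟩
      let b' : A := ⟨b, hb⟩
      refine ⟨b' * act hst τ b', mul_ne_zero hb0 hsd0, ?_,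
        (act hst τ a' - a') * b' - a' * (act hst τ b' - b'),
        Ideal.sub_mem _ (Ideal.mul_mem_right _ _ (fixI_mem hst τ a'))
          (Ideal.mul_mem_left _ _ (fixI_mem hst τ b')), ?_⟩
      · change (b * ρ τ b)⁻¹ ∈ W
        rw [mul_inv]
        exact W.mul_mem _ _ hbW hsdW
      · change b * ρ τ b * (ρ τ (a * b⁻¹) - a * b⁻¹) = (ρ τ a - a) * b - a * (ρ τ b - b)
        rw [map_mul, map_inv₀]
        field_simp
        ring
    | zero =>
      refine ⟨1, one_ne_zero, ?_, 0, Ideal.zero_mem _, ?_⟩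
      · rw [OneMemClass.coe_one, inv_one]; exact W.one_mem
      · rw [ZeroMemClass.coe_zero, mul_zero]; rfl
    | add a b _ _ ha hb => exact hadd _ _ _ ha hb
    | smul r a _ ha =>
      have h2 := hmul _ _ _ _ (h0 r) ha
      rw [Ideal.top_mul] at h2
      exact h2
  induction n with
  | zero =>
    intro x _
    rw [pow_zero, Ideal.one_eq_top]
    exact h0 x
  | succ n ih =>
    intro x hx
    rw [pow_succ] at hx ⊢
    induction hx using Submodule.mul_induction_on' with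
    | mem_mul_mem m hm' l hl => exact hmul _ _ _ _ (ih m hm') (h1 l hl)
    | add x hx y hy hx' hy' => exact hadd _ _ _ hx' hy'

lemma fixI_pow_mem (hF : Fx (ρ τ) W (lo W.toSubring A.toSubring)) (n : ℕ) (x : A)
    (hx : x ∈ fixI hst τ ^ n) :
    (⟨(x : K), le_lo _ _ x.2⟩ : lo W.toSubring A.toSubring) ∈ fixR (qact hF) ^ n := by
  let ι : A →+* lo W.toSubring A.toSubring :=
    { toFun := fun a => ⟨a, le_lo _ _ a.2⟩
      map_one' := rfl
      map_zero' := rfl
      map_mul' := fun _ _ => rfl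
      map_add' := fun _ _ => rfl }
  have h1 : (fixI hst τ).map ι ≤ fixR (qact hF) := by
    unfold fixI
    rw [Ideal.map_span, Ideal.span_le]
    rintro _ ⟨_, ⟨a, rfl⟩, rfl⟩
    exact fixR_mem (t := qact hF) (ι a)
  have h2 : (fixI hst τ ^ n).map ι ≤ fixR (qact hF) ^ n := by
    rw [Ideal.map_pow]
    exact Ideal.pow_right_mono h1 n
  exact h2 (Ideal.mem_map_of_mem ι hx)

include hAW in
/-- The main local computation. -/
theorem claimS (hF : Fx (ρ τ) W (lo W.toSubring A.toSubring)) {p : ℕ} (hτ : τ ^ p = 1)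
    (hsc : ∃ u, ∀ x ∈ fixR (qact hF), qact hF x - u * x ∈ fixR (qact hF) ^ 2) {m : ℕ}
    (hpm : p ∣ m) {V : Ideal A} {v₀ : A} (hv₀ : v₀ ∈ V) (hv0 : (v₀ : K) ≠ 0)
    (hvW : (v₀ : K)⁻¹ ∈ W) :
    ∀ w ∈ fixI hst τ ^ m * V, ∃ s : A, (s : K) ≠ 0 ∧ (s : K)⁻¹ ∈ W ∧
      s * (act hst τ w - w) ∈ fixI hst τ * (fixI hst τ ^ m * V) := by
  obtain ⟨u, hu⟩ := hsc
  have hp : ∀ x, (qact hF)^[p] x = x := by
    intro x
    have h1 : ∀ n : ℕ, (((qact hF)^[n] x : lo W.toSubring A.toSubring) : K) = ρ (τ ^ n) x := by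
      intro n
      induction n with
      | zero => rw [pow_zero, map_one]; rfl
      | succ n ih =>
        rw [Function.iterate_succ_apply', qact_coe, ih, pow_succ', map_mul]
        rfl
    apply Subtype.ext
    rw [h1, hτ, map_one]
    rfl
  intro w hw
  induction hw using Submodule.mul_induction_on' with
  | mem_mul_mem l hl v hv =>
    have h1 := sc_pow u hu hp hpm (fixI_pow_mem hst hF m l hl)
    obtain ⟨s₁, hs0, hsW, a, ha, hsa⟩ := clear_den hst hAW hF (m + 1) _ h1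
    have h2 : s₁ * (act hst τ l - l) = a := Subtype.ext hsa
    refine ⟨s₁ * v₀, mul_ne_zero hs0 hv0, ?_, ?_⟩
    · change ((s₁ : K) * (v₀ : K))⁻¹ ∈ W
      rw [mul_inv]
      exact W.mul_mem _ _ hsW hvW
    · have e : s₁ * v₀ * (act hst τ (l * v) - l * v) =
          (s₁ * (act hst τ l - l)) * (v₀ * act hst τ v) +
            (act hst τ v - v) * (s₁ * (l * v₀)) := by
        rw [map_mul]
        ring
      rw [e, h2]
      refine Ideal.add_mem _ ?_ ?_
      · rw [← mul_assoc, ← pow_succ']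
        exact Ideal.mul_mem_mul ha (Ideal.mul_mem_right _ _ hv₀)
      · exact Ideal.mul_mem_mul (fixI_mem hst τ v)
          (Ideal.mul_mem_left _ _ (Ideal.mul_mem_mul hl hv₀))
  | add x hx y hy hx' hy' =>
    obtain ⟨s, hs0, hsW, hs⟩ := hx'
    obtain ⟨s', hs0', hsW', hs'⟩ := hy'
    refine ⟨s * s', mul_ne_zero hs0 hs0', ?_, ?_⟩
    · change ((s : K) * (s' : K))⁻¹ ∈ W
      rw [mul_inv]
      exact W.mul_mem _ _ hsW hsW'
    · have e : s * s' * (act hst τ (x + y) - (x + y)) =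
          s' * (s * (act hst τ x - x)) + s * (s' * (act hst τ y - y)) := by
        rw [map_add]
        ring
      rw [e]
      exact Ideal.add_mem _ (Ideal.mul_mem_left _ _ hs) (Ideal.mul_mem_left _ _ hs')

end val

end Pool.Agent.N864.GQ
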