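import Pool.Agent.N864.GQ.Glue
import Pool.Agent.Y363.G.Atlas

/-!
# The module of the quotient
-/

set_option autoImplicit false
set_option linter.unusedSectionVars false
set_option linter.unusedVariables false

namespace Pool.Agent.N864.GQ

open Pool.Agent.Y223.G Pool.Agent.TH188.QS Pool.Agent.W418.LU2 Pool.Agent.TH188.ARC
  Pool.Agent.Y223.INV
open Pool.Agent.Y25.G (MN_mul MN_one MN_zero MN_z MN_succ MN_pow_z FS_pow FS_mul FS_one)
open Pool.Agent.Y232.G6 (Ph Ph_hm mem_res)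

/-- The ring of the chart `z j ≠ 0`. -/
def CC (O : Type) {K : Type} [CommRing O] [Field K] [Algebra O K] {m : ℕ} (z : Fin (m + 1) → K)
    (j : Fin (m + 1)) : Subring K :=
  (Algebra.adjoin O (Set.range fun i => z i / z j)).toSubring

/-- The condition at the points of the charts. -/
def PTC (O : Type) {K G : Type} [CommRing O] [Field K] [Algebra O K] [Group G]
    (ρ : G →* (K ≃ₐ[O] K)) (W : ValuationSubring K) (Q : Subring K) : Prop :=
  PT ρ W Q ∧ ((∀ s : O, s ≠ 0 → ¬ NU W.toSubring (algebraMap O K s)) →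
    ∀ g, Fx (ρ g) W Q → g = 1)

section

variable {O F K G : Type} [CommRing O] [Field F] [Field K] [Algebra O F] [Algebra O K]
  [Algebra F K] [IsScalarTower O F K] [Group G] (ρ : G →* (K ≃ₐ[O] K)) {m : ℕ}
  (z : Fin (m + 1) → K)

variable {z} {d : ℕ} {Φ : K}

lemma ve_of [Fintype G] [IsDomain O] (hinj : Function.Injective (algebraMap O K))
    (hst : ∀ g, ∀ a ∈ AF O z d Φ, ρ g a ∈ AF O z d Φ) (hz : ∀ j, z j ≠ 0) (hΦ0 : Φ ≠ 0)
    (hΦ : Φ ∈ FS O z d) (hd : 1 ≤ d)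
    (hpt : ∀ (W : ValuationSubring K) j, CC O z j ≤ W.toSubring →
      PTC O ρ W (lo W.toSubring (CC O z j))) :
    ∃ s : O, s ≠ 0 ∧ algebraMap O (AF O z d Φ) s ∈ AI hst := by
  classical
  by_contra hcon
  push Not at hcon
  let S : Submonoid (AF O z d Φ) := (nonZeroDivisors O).map (algebraMap O (AF O z d Φ))
  have hdis : Disjoint (AI hst : Set (AF O z d Φ)) (S : Set (AF O z d Φ)) := by
    rw [Set.disjoint_left]
    rintro _ h1 ⟨s, hs, rfl⟩
    exact hcon s (nonZeroDivisors.ne_zero hs) h1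
  obtain ⟨q, hq, hle, hqd⟩ := Ideal.exists_le_prime_disjoint _ S hdis
  obtain ⟨W, hAW, hW⟩ := Pool.Agent.Y223.CC.exists_val (AF O z d Φ).toSubring q
  have hctr : ctr hAW = q := by
    ext a
    exact (hW a).symm
  obtain ⟨j, hCW, hlo⟩ := lo_AF hz hΦ0 hΦ hd hAW
  obtain ⟨-, h2⟩ := hpt W j hCW
  have h3 : ∀ s : O, s ≠ 0 → ¬ NU W.toSubring (algebraMap O K s) := by
    intro s hs h
    have h4 : algebraMap O (AF O z d Φ) s ∈ q := by
      rw [← hctr]
      exact (nu_iff (hAW (Subalgebra.algebraMap_mem _ s))).1 h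
    rw [Set.disjoint_left] at hqd
    exact hqd h4 ⟨s, mem_nonZeroDivisors_of_ne_zero hs, rfl⟩
  obtain ⟨v, hv, hvq⟩ := II_not_le hst q hq fun g hg => by
    refine h2 h3 g ?_
    change Fx (ρ g) W (lo W.toSubring (Algebra.adjoin O (Set.range fun i => z i / z j)).toSubring)
    rw [← hlo]
    exact fx_of_le hst hAW (hctr ▸ hg)
  exact hvq (hle hv)

end

/-- The module of the quotient. -/
theorem gq_module {O F K G : Type} [CommRing O] [IsDomain O] [IsNoetherianRing O] [Field F]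
    [Field K] [Algebra O F] [Algebra O K] [Algebra F K] [IsScalarTower O F K] [Group G] [Finite G]
    (hinj : Function.Injective (algebraMap O K)) (ρ : G →* (K ≃ₐ[O] K))
    (hfix : ∀ x, (∀ g, ρ g x = x) ↔ ∃ f : F, algebraMap F K f = x)
    (hρ : Function.Injective ρ) {m : ℕ} (z : Fin (m + 1) → K) (hz : ∀ j, z j ≠ 0)
    (hfr : ∀ S : Subfield K, (∀ o : O, algebraMap O K o ∈ S) → (∀ i j, z i / z j ∈ S) → S = ⊤)
    (hlin : ∀ g j, ρ g (z j) ∈ Submodule.span O (Set.range z))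
    (hpt : ∀ (W : ValuationSubring K) j, CC O z j ≤ W.toSubring →
      PTC O ρ W (lo W.toSubring (CC O z j)))
    (M₀ : Submodule O F) (hM₀ : M₀.FG) (c k₀ : ℕ) (hc : 1 ≤ c)
    (hM : ∀ k, k₀ ≤ k → ∀ f : F, algebraMap F K f ∈ sat (FS O z (c * k)) ↔ f ∈ sat (M₀ ^ k)) :
    ∃ M' : Submodule O F, M'.FG ∧ (∃ f ∈ M', f ≠ 0) ∧
      (∀ f ∈ M', f ≠ 0 → ∀ y : F, ∃ b ∈ Pool.Agent.H918R2.Quad.chart O M' f,
        ∃ c ∈ Pool.Agent.H918R2.Quad.chart O M' f, c ≠ 0 ∧ y = b / c) ∧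
      (∀ f ∈ M', f ≠ 0 → ∀ (q : Ideal (Pool.Agent.H918R2.Quad.chart O M' f)) [q.IsPrime],
        IsRegularLocalRing (Localization.AtPrime q)) ∧
      ∃ n : ℕ, 1 ≤ n ∧ (∀ y ∈ M', y ∈ sat (M₀ ^ n)) ∧
        ∀ y : F, y ∈ M₀ ^ n → ∃ s : O, s ≠ 0 ∧ s • y ∈ M' := by
  classical
  let _ : Fintype G := Fintype.ofFinite G
  let ι : F →ₐ[O] K := IsScalarTower.toAlgHom O F K
  have hinjF : Function.Injective (algebraMap O F) := by
    intro a b hab
    apply hinj
    rw [IsScalarTower.algebraMap_apply O F K, IsScalarTower.algebraMap_apply O F K, hab]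
  obtain ⟨n₁, S, hn₁, hSfin, hS, hval⟩ := exists_forms ρ z ι hz hlin (c * (k₀ + 1))
    (Nat.one_le_iff_ne_zero.2 (Nat.mul_ne_zero (by omega) (by omega)))
  obtain ⟨n, hn⟩ : ∃ n, n = n₁ * (k₀ + 1) := ⟨_, rfl⟩
  obtain ⟨d, hd⟩ : ∃ d, d = n₁ * (c * (k₀ + 1)) := ⟨_, rfl⟩
  have hdn : d = c * n := by rw [hd, hn]; ring
  rw [← hd] at hS hval
  have hn1 : 1 ≤ n := by
    rw [hn]
    exact Nat.one_le_iff_ne_zero.2 (Nat.mul_ne_zero (by omega) (by omega))
  have hnk : k₀ ≤ n := by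
    rw [hn]
    calc k₀ ≤ 1 * (k₀ + 1) := by omega
      _ ≤ n₁ * (k₀ + 1) := Nat.mul_le_mul_right _ hn₁
  have hd1 : 1 ≤ d := by
    rw [hdn]
    exact Nat.one_le_iff_ne_zero.2 (Nat.mul_ne_zero (by omega) (by omega))
  have hfinS : Finite S := hSfin
  have hst : ∀ a : S, ∀ g, ∀ x ∈ AF O z d a, ρ g x ∈ AF O z d a := fun a g =>
    AF_act hlin (hS a a.2).2.2 g
  have hex : ∀ a : S, ∃ y : F, ι y = a := fun a => (hfix _).1 fun g => (hS a a.2).2.2 g
  choose h hh using hex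
  have hh0 : ∀ a, h a ≠ 0 := by
    intro a h0
    have h1 := hh a
    rw [h0, map_zero] at h1
    exact (hS a a.2).2.1 h1.symm
  obtain ⟨R, hR⟩ : ∃ R : S → Subalgebra O (LP F), R = fun a => res ι (RI (AI (hst a))) := ⟨_, rfl⟩
  have hmemR : ∀ (a : S) (y : F), hm 0 y ∈ R a ↔ ι y ∈ AF O z d a := by
    intro a y
    rw [hR, mem_res, Ph_hm]
    constructor
    · intro h
      obtain ⟨b, -, hb⟩ := of_hm_RI h
      rw [← hb]
      exact b.2
    · intro h
      exact b_RI (𝔞 := AI (hst a)) ⟨_, h⟩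
  have hfaith : ∀ (a : S) g, (∀ x ∈ AF O z d a, ρ g x = x) → g = 1 := by
    intro a g hg
    apply hρ
    rw [map_one]
    ext y
    obtain ⟨b, hb, b', hb', -, rfl⟩ := AF_frac (O := O) hz (hS a a.2).2.1 hd1 hfr y
    rw [map_div₀, hg b hb, hg b' hb']
    rfl
  have hCh : ∀ a, Ch (R a) := by
    intro a
    rw [hR]
    have hft := AF_ft (O := O) z d a
    refine ch_res (hst a) ι (fun x => hfix x) (hfaith a) ?_
    intro W hAW
    obtain ⟨j, hCW, hlo⟩ := lo_AF hz (hS a a.2).2.1 (hS a a.2).1 hd1 hAW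
    rw [hlo]
    exact (hpt W j hCW).1
  have hquot : ∀ a b : S, ι (h b / h a) = (b : K) / a := by
    intro a b
    rw [map_div₀, hh, hh]
  have hιinj : ∀ x y : F, ι x = ι y → x = y := fun x y hxy => ι.toRingHom.injective hxy
  obtain ⟨r, T, hT, C, H, hAt⟩ := Pool.Agent.Y363.G.t_ATLAS O F hinjF True M₀ ⊤ S R h hCh hh0
    (fun a => Subfield.mem_top _) (fun _ _ x _ => Subfield.mem_top x)
    (fun a b => by
      rw [hmemR, hquot]
      exact FS_AF (hS b b.2).1)
    (fun a b f hf => by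
      rw [hR] at hf
      have hf' : Ph ι f ∈ RI (AI (hst b)) := mem_res.1 hf
      obtain ⟨k, hk⟩ := glue_RI (u := (b : K) / a) (FS_AF (hS b b.2).1) (hst a) (hst b)
        (fun g => by rw [map_div₀, (hS a a.2).2.2, (hS b b.2).2.2])
        (AF_glue (hS a a.2).2.1 (hS b b.2).1 (hS b b.2).2.1) _ hf'
      refine ⟨k, ?_⟩
      rw [hR, mem_res, map_mul, map_pow, Ph_hm, hquot]
      exact hk)
    (fun V hV => by
      obtain ⟨Φ, hΦ, hΦV⟩ := hval V hV
      refine ⟨⟨Φ, hΦ⟩, fun x hx => ?_⟩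
      rw [hmemR] at hx
      exact hΦV x hx)
    (fun a x _ => by
      obtain ⟨b, hb, b', hb', hb0, hx⟩ := AF_frac (O := O) hz (hS a a.2).2.1 hd1 hfr (ι x)
      have hsplit : ∏ g : G, ρ g b' = b' * ∏ g ∈ Finset.univ.erase 1, ρ g b' := by
        rw [← Finset.mul_prod_erase Finset.univ _ (Finset.mem_univ (1 : G)), map_one]
        rfl
      have hmem : ∏ g ∈ Finset.univ.erase (1 : G), ρ g b' ∈ AF O z d a :=
        Subalgebra.prod_mem _ fun g _ => hst a g b' hb'
      have hne : ∏ g : G, ρ g b' ≠ 0 :=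
        Finset.prod_ne_zero_iff.2 fun g _ h0 => hb0 ((map_eq_zero _).1 h0)
      have hinv : ∀ g, ρ g (∏ g : G, ρ g b') = ∏ g : G, ρ g b' := by
        intro g
        rw [map_prod]
        refine Fintype.prod_equiv (Equiv.mulLeft g) _ _ fun g' => ?_
        rw [Equiv.coe_mulLeft, map_mul, AlgEquiv.mul_apply]
      obtain ⟨y', hy'⟩ := (hfix _).1 hinv
      have hy'' : ι y' = ∏ g : G, ρ g b' := hy'
      have hy0 : y' ≠ 0 := by
        rintro rfl
        rw [map_zero] at hy''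
        exact hne hy''.symm
      refine ⟨x * y', y', ?_, ?_, hy0, ?_⟩
      · rw [hmemR, map_mul, hy'', hx, hsplit]
        have e : b / b' * (b' * ∏ g ∈ Finset.univ.erase (1 : G), ρ g b') =
            b * ∏ g ∈ Finset.univ.erase (1 : G), ρ g b' := by
          field_simp
        rw [e]
        exact Subalgebra.mul_mem _ hb hmem
      · rw [hmemR, hy'', hsplit]
        exact Subalgebra.mul_mem _ hb' hmem
      · rw [mul_div_cancel_right₀ _ hy0])
    (fun _ a => by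
      obtain ⟨s, hs, hs'⟩ := ve_of ρ hinj (hst a) hz (hS a a.2).2.1 (hS a a.2).1 hd1 hpt
      refine ⟨s, hs, ?_⟩
      rw [hR, mem_res, Ph_hm, ι.commutes]
      exact hm_one_RI hs')
    (fun _ => ⟨n, hn1, fun a => by
      have hA : ∀ x ∈ AF O z d a, ∃ N₀ : ℕ, ∀ N, N₀ ≤ N → (a : K) ^ N * x ∈ FS O z (d * N) :=
        fun x hx => AF_den (hS a a.2).2.1 (hS a a.2).1 hx
      refine ⟨?_, ?_, ?_⟩
      · rw [← hM n hnk]
        refine ⟨1, one_ne_zero, ?_⟩
        rw [one_smul, ← hdn]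
        have h1 := (hS a a.2).1
        rw [← hh a] at h1
        exact h1
      · intro y hy
        have h1 : y ∈ sat (M₀ ^ n) := ⟨1, one_ne_zero, by rwa [one_smul]⟩
        rw [← hM n hnk] at h1
        obtain ⟨s, hs, hs'⟩ := h1
        refine ⟨s, hs, ?_⟩
        rw [hmemR, map_smul, map_div₀, hh, Algebra.smul_def, ← mul_div_assoc, ← Algebra.smul_def]
        rw [← hdn] at hs'
        exact FS_AF hs'
      · intro f hf
        rw [hmemR] at hf
        obtain ⟨N₀, hN₀⟩ := hA _ hf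
        refine ⟨N₀ + 1, fun N hN => ?_⟩
        have hkN : k₀ ≤ n * N := by
          calc k₀ ≤ n := hnk
            _ = n * 1 := (Nat.mul_one n).symm
            _ ≤ n * N := Nat.mul_le_mul_left _ (by omega)
        rw [← hM (n * N) hkN]
        refine ⟨1, one_ne_zero, ?_⟩
        have h1 := hN₀ N (by omega)
        have h2 : algebraMap F K (h a ^ N * f) = (a : K) ^ N * ι f := by
          rw [map_mul, map_pow]
          congr 2
          exact hh a
        rw [one_smul, h2]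
        have e : c * (n * N) = d * N := by rw [hdn]; ring
        rw [e]
        exact h1⟩)
  obtain ⟨I, _, zz, J, hmod⟩ := all_MODEL O F hinjF True M₀ hM₀ ⊤ (fun _ _ _ => Subfield.mem_top _)
    r T C H hAt
  have htop : (⊤ : Subfield F) = (algebraMap F F).fieldRange := by
    ext x
    constructor
    · exact fun _ => ⟨x, rfl⟩
    · exact fun _ => Subfield.mem_top _
  rw [htop] at hmod
  obtain ⟨M', h1, h2, h3, h4, h5⟩ := Pool.Agent.Y246.G.t_HASM O F F hinjF True M₀ I zz J hmod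
  exact ⟨M', h1, h2, h3, h4, h5 trivial⟩

end Pool.Agent.N864.GQ
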