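import Pool.Agent.N864.GQ.Tame

/-!
# The conditions at the points
-/

set_option autoImplicit false
set_option linter.unusedSectionVars false
set_option linter.unusedVariables false

namespace Pool.Agent.N864.GQ

open IsLocalRing Pool.Agent.Y223.G Pool.Agent.TH188.QS Pool.Agent.W418.LU2 Pool.Agent.TH188.ARC
  Pool.Agent.Y223.INV

variable {O K G : Type} [CommRing O] [Field K] [Algebra O K] [Group G]

/-- The ideal of the fixed points. -/
def fixedIdeal (σ : K ≃ₐ[O] K) (R : Subring K) : Ideal R :=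
  Ideal.span {y : R | ∃ x : R, (y : K) = σ x - x}

/-- The automorphism acts as a scalar on the conormal module. -/
def ActsByScalar (σ : K ≃ₐ[O] K) (R : Subring K) : Prop :=
  ∃ u : R, ∀ y ∈ fixedIdeal σ R, ∀ y' : R, (y' : K) = σ y → y' - u * y ∈ fixedIdeal σ R ^ 2

/-- The conditions on the generator of the inertia group. -/
def Good (p : ℕ) (σ : K ≃ₐ[O] K) (R : Subring K) : Prop :=
  (IsUnit (p : R) ∧ (p = 2 ∨ ActsByScalar σ R)) ∨
    ∃ (t : R) (δ : R → R), t ≠ 0 ∧ (∀ x : R, σ x = x + t * δ x) ∧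
      (Ideal.span (Set.range δ) = ⊤ ∨
        (IsRegularLocalRing (R ⧸ Ideal.span (Set.range δ)) ∧ (p = 2 ∨ ActsByScalar σ R)))

/-- The conditions on the inertia group. -/
def InertiaCondition (ρ : G →* (K ≃ₐ[O] K)) (R : Subring K) : Prop :=
  (∀ g, IsFixed (ρ g) R → g = 1) ∨
    ((∃ s : O, s ≠ 0 ∧ ∃ y : R, (y : K) = algebraMap O K s ∧ ¬ IsUnit y) ∧
      ∃ (p : ℕ) (τ : G), p.Prime ∧ orderOf τ = p ∧
        (∀ g, IsFixed (ρ g) R ↔ g ∈ Subgroup.zpowers τ) ∧ Good p (ρ τ) R)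

variable {ρ : G →* (K ≃ₐ[O] K)} {W : ValuationSubring K} {Q : Subring K}

lemma fx_iff (hQW : Q ≤ W.toSubring) (hIC : IC W.toSubring Q) (hreg : IsRegularLocalRing Q)
    (σ : K ≃ₐ[O] K) : Fx σ W Q ↔ IsFixed σ Q := by
  have hmax : ∀ y : Q, y ∈ maximalIdeal Q ↔ NU W.toSubring (y : K) := mem_max_iff hQW hIC
  constructor
  · intro h x
    refine ⟨⟨σ x, (h x x.2).1⟩, rfl, ?_⟩
    have h1 := (hmax (⟨σ x, (h x x.2).1⟩ - x)).2 (h x x.2).2
    exact (mem_maximalIdeal _).1 h1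
  · intro h x hx
    obtain ⟨y, hy, hnu⟩ := h ⟨x, hx⟩
    refine ⟨hy ▸ y.2, ?_⟩
    have h1 := (hmax (y - ⟨x, hx⟩)).1 ((mem_maximalIdeal _).2 hnu)
    change NU W.toSubring ((y : K) - x) at h1
    rwa [hy] at h1

lemma sc_top {R : Type} [CommRing R] [IsLocalRing R] {q : R →+* R} {t : R} {δ : R → R}
    (hδ : ∀ x, q x = x + t * δ x) (htop : Ideal.span (Set.range δ) = ⊤) :
    ∃ u, ∀ x ∈ fixR q, q x - u * x ∈ fixR q ^ 2 := by
  have h1 : ∃ x : R, IsUnit (δ x) := by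
    by_contra hcon
    push Not at hcon
    have h2 : Ideal.span (Set.range δ) ≤ maximalIdeal R := by
      rw [Ideal.span_le]
      rintro _ ⟨x, rfl⟩
      exact (mem_maximalIdeal _).2 (hcon x)
    rw [htop, top_le_iff] at h2
    exact (maximalIdeal.isMaximal R).ne_top h2
  obtain ⟨x₀, hx₀⟩ := h1
  obtain ⟨v, hv⟩ := isUnit_iff_exists_inv.1 hx₀
  set e := t * δ x₀ with he
  have hsub : ∀ x, q x - x = t * δ x := by
    intro x
    rw [hδ]
    ring
  have heF : e ∈ fixR q := by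
    rw [he, ← hsub]
    exact fixR_mem x₀
  have hle : fixR q ≤ Ideal.span {e} := by
    unfold fixR
    rw [Ideal.span_le]
    rintro _ ⟨y, rfl⟩
    rw [SetLike.mem_coe, hsub, Ideal.mem_span_singleton]
    refine ⟨v * δ y, ?_⟩
    rw [he]
    linear_combination (- t * δ y) * hv
  have h2 : q e ∈ fixR q := by
    have h3 := fixR_map (t := q)
    exact h3 (Ideal.mem_map_of_mem _ heF)
  obtain ⟨u, hu⟩ := Ideal.mem_span_singleton.1 (hle h2)
  refine ⟨u, fun x hx => ?_⟩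
  obtain ⟨a, ha⟩ := Ideal.mem_span_singleton.1 (hle hx)
  have h3 : q x - u * x = (q a - a) * (u * e) := by
    rw [ha, map_mul, hu]
    ring
  rw [h3, pow_two]
  exact Ideal.mul_mem_mul (fixR_mem a) (Ideal.mul_mem_left _ _ heF)

/-- The conditions at the points. -/
theorem ptc_of (hQW : Q ≤ W.toSubring) (hIC : IC W.toSubring Q) (hreg : IsRegularLocalRing Q)
    (h : InertiaCondition ρ Q) : PTC O ρ W Q := by
  classical
  have hmax : ∀ y : Q, y ∈ maximalIdeal Q ↔ NU W.toSubring (y : K) := mem_max_iff hQW hIC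
  have hfx : ∀ g, Fx (ρ g) W Q ↔ IsFixed (ρ g) Q := fun g => fx_iff hQW hIC hreg (ρ g)
  rcases h with h | ⟨⟨s, hs, y, hy, hyu⟩, p, τ, hp, hτ, hI, hG⟩
  · exact ⟨⟨hreg, Or.inl fun g hg => h g ((hfx g).1 hg)⟩, fun _ g hg => h g ((hfx g).1 hg)⟩
  have hτp : τ ^ p = 1 := by rw [← hτ, pow_orderOf_eq_one]
  have hτ1 : τ ≠ 1 := by
    rintro rfl
    rw [orderOf_one] at hτ
    exact hp.one_lt.ne hτ
  have hF : Fx (ρ τ) W Q := (hfx τ).2 ((hI τ).2 (Subgroup.mem_zpowers τ))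
  have hloc : IsLocalRing Q := hreg.toIsLocalRing
  have h22 : p = 2 → ∀ x, ρ τ (ρ τ x) = x := by
    intro h2 x
    rw [h2] at hτp
    rw [← AlgEquiv.mul_apply, ← map_mul, ← pow_two, hτp, map_one]
    rfl
  have hpp : ∀ x, (ρ τ)^[p] x = x := by
    intro x
    have h1 : ∀ n : ℕ, (ρ τ)^[n] x = ρ (τ ^ n) x := by
      intro n
      induction n with
      | zero => rw [pow_zero, map_one]; rfl
      | succ n ih => rw [Function.iterate_succ_apply', ih, pow_succ', map_mul]; rfl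
    rw [h1, hτp, map_one]
    rfl
  refine ⟨⟨hreg, Or.inr ⟨p, τ, hp, hτp, hτ1, fun g hg => (hI g).1 ((hfx g).1 hg), ?_, hF, ?_⟩⟩,
    ?_⟩
  · rcases hG with ⟨hu, -⟩ | ⟨t, δ, ht0, hδ, hJ⟩
    · exact gd_of_tame hpp hQW hIC hreg hF hu
    · exact gd_of_regular hQW hIC hreg ⟨t, δ, ht0, hδ, hJ.imp id And.left⟩
  · have hsc2 : p = 2 → ∃ u, ∀ x ∈ fixR (qact hF), qact hF x - u * x ∈ fixR (qact hF) ^ 2 :=
      fun h2 => ⟨-1, sc_two fun x => Subtype.ext (h22 h2 x)⟩
    have hfi : fixedIdeal (ρ τ) Q = fixR (qact hF) := by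
      unfold fixedIdeal fixR
      congr 1
      ext y
      constructor
      · rintro ⟨x, hx⟩
        exact ⟨x, Subtype.ext hx⟩
      · rintro ⟨x, hx⟩
        exact ⟨x, congrArg Subtype.val hx⟩
    have hsc : ActsByScalar (ρ τ) Q →
        ∃ u, ∀ x ∈ fixR (qact hF), qact hF x - u * x ∈ fixR (qact hF) ^ 2 := by
      rintro ⟨u, hu⟩
      rw [hfi] at hu
      exact ⟨u, fun x hx => hu x hx _ rfl⟩
    rcases hG with ⟨-, h2⟩ | ⟨t, δ, ht0, hδ, hJ | ⟨hJ, h2⟩⟩
    · exact h2.elim hsc2 hsc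
    · exact sc_top (t := t) (δ := δ) (fun x => Subtype.ext (hδ x)) hJ
    · exact h2.elim hsc2 hsc
  · intro h3
    exact absurd ((hmax y).1 ((mem_maximalIdeal _).2 hyu)) (hy ▸ h3 s hs)

/-- The conditions at the primes of the charts. -/
theorem ptc_chart {m : ℕ} {z : Fin (m + 1) → K} {j : Fin (m + 1)}
    (hreg : IsRegularRing (CC O z j))
    (hpt : ∀ (𝔮 : Ideal (CC O z j)) [𝔮.IsPrime],
      InertiaCondition ρ (LocalSubring.ofPrime (CC O z j) 𝔮).toSubring)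
    (W : ValuationSubring K) (hcW : CC O z j ≤ W.toSubring) :
    PTC O ρ W (lo W.toSubring (CC O z j)) := by
  classical
  let φ : CC O z j →+* W := (CC O z j).subtype.codRestrict W fun x => hcW x.2
  let P : Ideal (CC O z j) := (maximalIdeal W).comap φ
  have hP : P.IsPrime := Ideal.comap_isPrime _ _
  have hPN : ∀ a : CC O z j, a ∈ P ↔ NU W.toSubring (a : K) := by
    intro a
    have h1 : a ∈ P ↔ φ a ∈ maximalIdeal W := Iff.rfl
    rw [h1, mem_maximalIdeal, mem_nonunits_iff, NU, not_iff_not]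
    constructor
    · intro h
      obtain ⟨y, hy⟩ := isUnit_iff_exists_inv.1 h
      have h2 : (a : K) * y = 1 := congrArg Subtype.val hy
      refine ⟨left_ne_zero_of_mul_eq_one h2, ?_⟩
      rw [← eq_inv_of_mul_eq_one_right h2]
      exact y.2
    · rintro ⟨h2, h3⟩
      exact isUnit_iff_exists_inv.2 ⟨⟨_, h3⟩, Subtype.ext (mul_inv_cancel₀ h2)⟩
  have hR := ofPrime_eq_lo hcW P hPN
  have hpt' := hpt P
  have hregR : IsRegularLocalRing (LocalSubring.ofPrime (CC O z j) P).toSubring :=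
    IsRegularLocalRing.of_ringEquiv (LocalSubring.ofPrimeEquiv (CC O z j) P).toRingEquiv
  rw [hR] at hpt' hregR
  exact ptc_of (lo_le hcW) (ic_lo hcW) hregR hpt'

end Pool.Agent.N864.GQ
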