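import Pool.Agent.N864.GQ.Main
import Pool.Agent.Y223.INV.Fin2

/-!
# Tame automorphisms
-/

set_option autoImplicit false
set_option linter.unusedSectionVars false
set_option linter.unusedVariables false

namespace Pool.Agent.N864.GQ

open IsLocalRing Pool.Agent.Y223.G Pool.Agent.TH188.QS Pool.Agent.W418.LU2 Pool.Agent.TH188.ARC
  Pool.Agent.Y223.INV

/-- Ideals `J` with `J ∩ m ^ 2 = m J` are generated by a part of a regular system of
parameters. -/
theorem ideal_ind' {T : Type} [CommRing T] [IsLocalRing T] [IsNoetherianRing T] (J : Ideal T)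
    (hm : J ≤ maximalIdeal T)
    (hJ : ∀ a ∈ J, a ∈ maximalIdeal T ^ 2 → a ∈ maximalIdeal T • J) :
    ∃ (c : ℕ) (y : Fin c → T), Ind y ∧ J = Ideal.span (Set.range y) := by
  classical
  let f : J → CotangentSpace T := fun a => (maximalIdeal T).toCotangent ⟨a, hm a.2⟩
  obtain ⟨b, hb, hbs, hbl⟩ := exists_linearIndependent (ResidueField T) (Set.range f)
  have hfin : Finite b := hbl.finite
  obtain ⟨c, ⟨e⟩⟩ := Finite.exists_equiv_fin b
  have hy : ∀ i : Fin c, ∃ a, f a = (e.symm i : CotangentSpace T) := fun i => hb (e.symm i).2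
  choose y hy using hy
  have hind : Ind (fun i => (y i : T)) := by
    rw [ind_iff (fun i => hm (y i).2)]
    have h1 : (fun i => ((maximalIdeal T).toCotangent ⟨(y i : T), hm (y i).2⟩ :
        CotangentSpace T)) = (fun x : b => (x : CotangentSpace T)) ∘ e.symm :=
      funext fun i => hy i
    rw [h1]
    exact hbl.comp _ e.symm.injective
  refine ⟨c, fun i => (y i : T), hind, ?_⟩
  apply le_antisymm
  swap
  · rw [Ideal.span_le]
    rintro _ ⟨i, rfl⟩
    exact (y i).2
  set I := Ideal.span (Set.range fun i => (y i : T)) with hI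
  have hIJ : I ≤ J := by
    rw [hI, Ideal.span_le]
    rintro _ ⟨i, rfl⟩
    exact (y i).2
  -- the second order
  have h2 : ∀ a ∈ J, ∃ i ∈ I, a - i ∈ maximalIdeal T ^ 2 := by
    intro a ha
    have h3 : f ⟨a, ha⟩ ∈ Submodule.span (ResidueField T) (Set.range fun i => f (y i)) := by
      have h4 : Set.range (fun i => f (y i)) = b := by
        ext x
        constructor
        · rintro ⟨i, rfl⟩
          change f (y i) ∈ b
          rw [hy i]
          exact (e.symm i).2
        · intro hx
          refine ⟨e ⟨x, hx⟩, ?_⟩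
          change f (y (e ⟨x, hx⟩)) = x
          rw [hy, Equiv.symm_apply_apply]
      rw [h4, hbs]
      exact Submodule.subset_span ⟨⟨a, ha⟩, rfl⟩
    rw [Submodule.mem_span_range_iff_exists_fun] at h3
    obtain ⟨g, hg⟩ := h3
    choose r hr using fun i => residue_surjective (R := T) (g i)
    refine ⟨∑ i, r i * (y i : T), Ideal.sum_mem _ fun i _ =>
      Ideal.mul_mem_left _ _ (Ideal.subset_span ⟨i, rfl⟩), ?_⟩
    have h6 : ((maximalIdeal T).toCotangent (⟨a, hm ha⟩ -
        ∑ i, r i • (⟨(y i : T), hm (y i).2⟩ : maximalIdeal T)) : CotangentSpace T) = 0 := by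
      rw [map_sub, map_sum]
      have h7 : ∀ i, (maximalIdeal T).toCotangent
          (r i • (⟨(y i : T), hm (y i).2⟩ : maximalIdeal T)) = g i • f (y i) := by
        intro i
        rw [map_smul, ← hr i]
        rfl
      rw [Finset.sum_congr rfl fun i _ => h7 i, hg]
      exact sub_self _
    rw [Ideal.toCotangent_eq_zero] at h6
    have h8 : (((⟨a, hm ha⟩ - ∑ i, r i • (⟨(y i : T), hm (y i).2⟩ : maximalIdeal T) :
        maximalIdeal T)) : T) = a - ∑ i, r i * (y i : T) := by
      rw [AddSubgroupClass.coe_sub, AddSubmonoidClass.coe_finsetSum]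
      rfl
    rwa [h8] at h6
  have h3 : J ≤ I ⊔ maximalIdeal T • J := by
    intro a ha
    obtain ⟨i, hi, hai⟩ := h2 a ha
    have h5 := hJ (a - i) (Ideal.sub_mem _ ha (hIJ hi)) hai
    have h6 : a = i + (a - i) := by ring
    rw [h6]
    exact Submodule.add_mem_sup hi h5
  exact Submodule.le_of_le_smul_of_le_jacobson_bot (IsNoetherian.noetherian J)
    (IsLocalRing.maximalIdeal_le_jacobson ⊥) h3

section tame

variable {R : Type} [CommRing R] [IsLocalRing R] {q : R →+* R} {p : ℕ}

/-- The ideal of the fixed points of a tame automorphism. -/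
theorem tame_ideal (hq : ∀ x, q^[p] x = x) (hp : IsUnit (p : R))
    (hqm : ∀ x, q x - x ∈ maximalIdeal R) :
    ∀ a ∈ fixR q, a ∈ maximalIdeal R ^ 2 → a ∈ maximalIdeal R • fixR q := by
  classical
  obtain ⟨v, hv⟩ := isUnit_iff_exists_inv.1 hp
  have hqi : ∀ (i : ℕ) x y, q^[i] (x + y) = q^[i] x + q^[i] y := fun i x y => iterate_map_add q i x y
  have hqmul : ∀ (i : ℕ) x y, q^[i] (x * y) = q^[i] x * q^[i] y :=
    fun i x y => iterate_map_mul q i x y
  have hqv : q v = v := by
    have h1 : (p : R) * q v = 1 := by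
      have := congrArg q hv
      rwa [map_mul, map_natCast, map_one] at this
    calc q v = (p * v) * q v := by rw [hv, one_mul]
      _ = v * (p * q v) := by ring
      _ = v := by rw [h1, mul_one]
  set J := fixR q with hJ
  have hJm : J ≤ maximalIdeal R := by
    rw [hJ]
    unfold fixR
    rw [Ideal.span_le]
    rintro _ ⟨y, rfl⟩
    exact hqm y
  obtain ⟨P, hP⟩ : ∃ P : R → R, ∀ x, P x = v * ∑ i ∈ Finset.range p, q^[i] x := ⟨_, fun _ => rfl⟩
  have hPadd : ∀ x y, P (x + y) = P x + P y := by
    intro x y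
    rw [hP, hP, hP, ← mul_add, ← Finset.sum_add_distrib]
    congr 1
    exact Finset.sum_congr rfl fun i _ => hqi i x y
  have hqP : ∀ x, q (P x) = P x := by
    intro x
    rw [hP, map_mul, hqv, map_sum]
    congr 1
    have h1 : ∑ i ∈ Finset.range p, q (q^[i] x) = ∑ i ∈ Finset.range p, q^[i + 1] x :=
      Finset.sum_congr rfl fun i _ => (Function.iterate_succ_apply' q i x).symm
    rw [h1]
    have h2 := Finset.sum_range_succ (fun i => q^[i] x) p
    have h3 := Finset.sum_range_succ' (fun i => q^[i] x) p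
    rw [h2] at h3
    rw [hq] at h3
    change _ = _ + x at h3
    exact (add_right_cancel h3).symm
  have hPq : ∀ x, P (q x) = P x := by
    intro x
    rw [← hqP x, hP, hP, map_mul, hqv, map_sum]
    congr 1
    refine Finset.sum_congr rfl fun i _ => ?_
    rw [← Function.iterate_succ_apply, Function.iterate_succ_apply']
  have hPfix : ∀ c x, q c = c → P (c * x) = c * P x := by
    intro c x hc
    have h1 : ∀ i, q^[i] c = c := fun i => Function.iterate_fixed hc i
    rw [hP, hP, Finset.mul_sum, Finset.mul_sum, Finset.mul_sum]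
    refine Finset.sum_congr rfl fun i _ => ?_
    rw [hqmul, h1]
    ring
  have hPid : ∀ x, q x = x → P x = x := by
    intro x hx
    have h1 : ∀ i, q^[i] x = x := fun i => Function.iterate_fixed hx i
    rw [hP, Finset.sum_congr rfl fun i _ => h1 i, Finset.sum_const, Finset.card_range,
      nsmul_eq_mul, ← mul_assoc, mul_comm v, hv, one_mul]
  have hit : ∀ (i : ℕ) x, x - q^[i] x ∈ J := by
    intro i
    induction i with
    | zero =>
      intro x
      rw [Function.iterate_zero, id, sub_self]
      exact Ideal.zero_mem _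
    | succ i ih =>
      intro x
      rw [Function.iterate_succ_apply]
      have e : x - q^[i] (q x) = (q x - q^[i] (q x)) - (q x - x) := by ring
      rw [e]
      exact Ideal.sub_mem _ (ih _) (fixR_mem x)
  have hDe : ∀ x, x - P x = v * ∑ i ∈ Finset.range p, (x - q^[i] x) := by
    intro x
    rw [Finset.sum_sub_distrib, Finset.sum_const, Finset.card_range, nsmul_eq_mul, mul_sub,
      ← mul_assoc, mul_comm v, hv, one_mul, hP]
  have hD : ∀ x, x - P x ∈ J := by
    intro x
    rw [hDe]
    exact Ideal.mul_mem_left _ _ (Ideal.sum_mem _ fun i _ => hit i x)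
  have hqM : ∀ x ∈ maximalIdeal R, q x ∈ maximalIdeal R := by
    intro x hx
    have e : q x = (q x - x) + x := by ring
    rw [e]
    exact Ideal.add_mem _ (hqm x) hx
  have hqJ : ∀ x ∈ J, q x ∈ J := fun x hx => fixR_map (Ideal.mem_map_of_mem _ hx)
  have hmJ : ∀ x ∈ maximalIdeal R • J, q x ∈ maximalIdeal R • J := by
    intro x hx
    induction hx using Submodule.smul_induction_on' with
    | smul r hr n hn =>
      change q (r * n) ∈ _
      rw [map_mul]
      exact Submodule.smul_mem_smul (hqM r hr) (hqJ n hn)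
    | add x _ y _ hx hy =>
      rw [map_add]
      exact Submodule.add_mem _ hx hy
  have hmJi : ∀ (i : ℕ), ∀ x ∈ maximalIdeal R • J, q^[i] x ∈ maximalIdeal R • J := by
    intro i
    induction i with
    | zero => exact fun x hx => hx
    | succ i ih =>
      intro x hx
      rw [Function.iterate_succ_apply']
      exact hmJ _ (ih x hx)
  have hDJ : ∀ x ∈ maximalIdeal R • J, x - P x ∈ maximalIdeal R • J := by
    intro x hx
    rw [hDe, ← smul_eq_mul]
    exact Submodule.smul_mem _ _ (Submodule.sum_mem _ fun i _ => Submodule.sub_mem _ hx (hmJi i x hx))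
  have hDsq : ∀ x ∈ maximalIdeal R ^ 2, x - P x ∈ maximalIdeal R • J := by
    intro x hx
    rw [pow_two] at hx
    refine Submodule.mul_induction_on hx ?_ ?_
    · intro a ha b hb
      set a₁ := a - P a with ha₁
      set b₁ := b - P b with hb₁
      have ha₀ : P a ∈ maximalIdeal R := by
        have e : P a = a - a₁ := by rw [ha₁]; ring
        rw [e]
        exact Ideal.sub_mem _ ha (hJm (hD a))
      have hb₀ : P b ∈ maximalIdeal R := by
        have e : P b = b - b₁ := by rw [hb₁]; ring
        rw [e]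
        exact Ideal.sub_mem _ hb (hJm (hD b))
      have h1 : P a * b₁ ∈ maximalIdeal R • J := Submodule.smul_mem_smul ha₀ (hD b)
      have h2 : b * a₁ ∈ maximalIdeal R • J := Submodule.smul_mem_smul hb (hD a)
      have e : a * b = P a * P b + (P a * b₁ + b * a₁) := by
        rw [ha₁, hb₁]
        ring
      have h3 : P (P a * P b) = P a * P b := hPid _ (by rw [map_mul, hqP, hqP])
      have h4 := hDJ _ (Submodule.add_mem _ h1 h2)
      have e2 : a * b - P (a * b) = (P a * b₁ + b * a₁) - P (P a * b₁ + b * a₁) := by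
        rw [e, hPadd (P a * P b), h3]
        ring
      rw [e2]
      exact h4
    · intro x y hx hy
      rw [hPadd]
      have e : x + y - (P x + P y) = (x - P x) + (y - P y) := by ring
      rw [e]
      exact Submodule.add_mem _ hx hy
  have hdec : ∀ z ∈ J, ∃ y ∈ maximalIdeal R • J, ∃ w, z = y + (w - P w) := by
    intro z hz
    rw [hJ] at hz
    unfold fixR at hz
    induction hz using Submodule.span_induction with
    | mem z hz =>
      obtain ⟨x, rfl⟩ := hz
      refine ⟨0, Submodule.zero_mem _, q x - x, ?_⟩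
      have h1 : P (q x - x) = 0 := by
        have h2 := hPadd (q x - x) x
        rw [sub_add_cancel, hPq] at h2
        exact (right_eq_add.1 h2)
      rw [h1]
      ring
    | zero =>
      refine ⟨0, Submodule.zero_mem _, 0, ?_⟩
      have h1 : P 0 = 0 := hPid 0 (map_zero q)
      rw [h1]
      ring
    | add a b _ _ ha hb =>
      obtain ⟨y, hy, w, rfl⟩ := ha
      obtain ⟨y', hy', w', rfl⟩ := hb
      refine ⟨y + y', Submodule.add_mem _ hy hy', w + w', ?_⟩
      rw [hPadd]
      ring
    | smul c a _ ha =>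
      obtain ⟨y, hy, w, rfl⟩ := ha
      refine ⟨c * y + (c - P c) * (w - P w), Submodule.add_mem _ (Submodule.smul_mem _ c hy)
        (Submodule.smul_mem_smul (hJm (hD c)) (hD w)), P c * w, ?_⟩
      rw [hPfix _ _ (hqP c), smul_eq_mul]
      ring
  intro z hz hz2
  obtain ⟨y, hy, w, rfl⟩ := hdec z hz
  refine Submodule.add_mem _ hy ?_
  have hym : y ∈ maximalIdeal R ^ 2 := by
    rw [pow_two]
    exact Ideal.mul_mono_right hJm hy
  have h1 : w - P w ∈ maximalIdeal R ^ 2 := by
    have e : w - P w = (y + (w - P w)) - y := by ring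
    rw [e]
    exact Ideal.sub_mem _ hz2 hym
  have h2 := hDsq _ h1
  have h3 : P (w - P w) = 0 := by
    have h4 := hPadd (w - P w) (P w)
    rw [sub_add_cancel, hPid _ (hqP w)] at h4
    exact (right_eq_add.1 h4)
  rwa [h3, sub_zero] at h2

end tame

section

variable {O K : Type} [CommRing O] [Field K] [Algebra O K] {σ : K ≃ₐ[O] K}
  {W : ValuationSubring K} {Q : Subring K}

/-- Tame fixed points are good. -/
theorem gd_of_tame {p : ℕ} (hσ : ∀ x, σ^[p] x = x) (hQW : Q ≤ W.toSubring)
    (hIC : IC W.toSubring Q) (hreg : IsRegularLocalRing Q) (hF : Fx σ W Q) (hp : IsUnit (p : Q)) :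
    ∃ (t : K) (c : ℕ) (z : Fin c → K), Gd σ W Q t z := by
  classical
  have hloc : IsLocalRing Q := hreg.toIsLocalRing
  have hmax : ∀ y : Q, y ∈ maximalIdeal Q ↔ NU W.toSubring (y : K) := mem_max_iff hQW hIC
  have hit : ∀ (i : ℕ) (x : Q), (((qact hF)^[i] x : Q) : K) = σ^[i] (x : K) := by
    intro i
    induction i with
    | zero => exact fun x => rfl
    | succ i ih =>
      intro x
      rw [Function.iterate_succ_apply, Function.iterate_succ_apply, ih]
      rfl
  have hq : ∀ x, (qact hF)^[p] x = x := fun x => Subtype.ext (by rw [hit, hσ])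
  have hqm : ∀ x, qact hF x - x ∈ maximalIdeal Q := fun x => (hmax _).2 (hF x x.2).2
  have hJm : fixR (qact hF) ≤ maximalIdeal Q := by
    unfold fixR
    rw [Ideal.span_le]
    rintro _ ⟨y, rfl⟩
    exact hqm y
  obtain ⟨c, y, hy, hyJ⟩ := ideal_ind' (fixR (qact hF)) hJm (tame_ideal hq hp hqm)
  refine ⟨1, c, fun i => (y i : K), one_ne_zero, regP_of_ind hQW hIC hreg hy, ?_⟩
  have key : ∀ (S : Set Q), Submodule.span Q ((fun y : Q => (y : K)) '' S) =
      Submodule.map (Algebra.linearMap Q K) (Ideal.span S) := by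
    intro S
    exact (Submodule.map_span (Algebra.linearMap Q K) S).symm
  have h1 : {y : K | ∃ x ∈ Q, y = σ x - x} =
      (fun y : Q => (y : K)) '' {x : Q | ∃ a, x = qact hF a - a} := by
    ext y
    constructor
    · rintro ⟨x, hx, rfl⟩
      exact ⟨qact hF ⟨x, hx⟩ - ⟨x, hx⟩, ⟨_, rfl⟩, rfl⟩
    · rintro ⟨_, ⟨x, rfl⟩, rfl⟩
      exact ⟨x, x.2, rfl⟩
  have h2 : (Set.range fun i => (1 : K) * y i) = (fun y : Q => (y : K)) '' Set.range y := by
    ext x
    constructor
    · rintro ⟨i, rfl⟩
      exact ⟨y i, ⟨i, rfl⟩, (one_mul _).symm⟩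
    · rintro ⟨_, ⟨i, rfl⟩, rfl⟩
      exact ⟨i, one_mul _⟩
  rw [h1, h2, key, key, ← hyJ]
  rfl

end

end Pool.Agent.N864.GQ
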